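import Mathlib

set_option autoImplicit false

namespace Pool.Agent.CSV

/-- The formulas of continuous logic for invariant length groups, read in all the symmetric
groups `S_n` with normalised Hamming length: a formula with `k` free variables is given by its
values `ψ n x`, `x : Fin k → S_n`.  Atoms are the lengths of group words; formulas are closed
under continuous connectives and under `sup` and `inf` over the group. -/
inductive IsFormula : (k : ℕ) → ((n : ℕ) → (Fin k → Equiv.Perm (Fin n)) → ℝ) → Prop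
  | atom (k : ℕ) (w : FreeGroup (Fin k)) :
      IsFormula k (fun (n : ℕ) (x : Fin k → Equiv.Perm (Fin n)) =>
        (((FreeGroup.lift x) w).support.card : ℝ) / (n : ℝ))
  | conn (k m : ℕ) (c : (Fin m → ℝ) → ℝ)
      (ψ : Fin m → ((n : ℕ) → (Fin k → Equiv.Perm (Fin n)) → ℝ)) (hc : Continuous c)
      (hψ : ∀ j, IsFormula k (ψ j)) :
      IsFormula k (fun (n : ℕ) (x : Fin k → Equiv.Perm (Fin n)) => c (fun j => ψ j n x))
  | sup (k : ℕ) (ψ : (n : ℕ) → (Fin (k + 1) → Equiv.Perm (Fin n)) → ℝ)
      (hψ : IsFormula (k + 1) ψ) :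
      IsFormula k (fun (n : ℕ) (x : Fin k → Equiv.Perm (Fin n)) =>
        ⨆ g : Equiv.Perm (Fin n), ψ n (Fin.snoc (α := fun _ => Equiv.Perm (Fin n)) x g))
  | inf (k : ℕ) (ψ : (n : ℕ) → (Fin (k + 1) → Equiv.Perm (Fin n)) → ℝ)
      (hψ : IsFormula (k + 1) ψ) :
      IsFormula k (fun (n : ℕ) (x : Fin k → Equiv.Perm (Fin n)) =>
        ⨅ g : Equiv.Perm (Fin n), ψ n (Fin.snoc (α := fun _ => Equiv.Perm (Fin n)) x g))

end Pool.Agent.CSV
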