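import Mathlib
import Pool.Agent.CSV.Defs

set_option autoImplicit false

namespace Pool.Agent.CSV

open Equiv Filter Topology

/-- The points of `Fin n` at which `a ∈ S_n` and `b ∈ S_m` disagree. -/
def bad {n m : ℕ} (h : n ≤ m) (a : Perm (Fin n)) (b : Perm (Fin m)) : Finset (Fin n) :=
  Finset.univ.filter (fun i => b (Fin.castLE h i) ≠ Fin.castLE h (a i))

theorem not_mem_bad {n m : ℕ} {h : n ≤ m} {a : Perm (Fin n)} {b : Perm (Fin m)} {i : Fin n} :
    i ∉ bad h a b ↔ b (Fin.castLE h i) = Fin.castLE h (a i) := by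
  simp [bad]

theorem bad_one {n m : ℕ} (h : n ≤ m) : (bad h (1 : Perm (Fin n)) (1 : Perm (Fin m))).card = 0 := by
  simp [bad]

theorem bad_mul {n m : ℕ} (h : n ≤ m) (a₁ a₂ : Perm (Fin n)) (b₁ b₂ : Perm (Fin m)) :
    (bad h (a₁ * a₂) (b₁ * b₂)).card ≤ (bad h a₁ b₁).card + (bad h a₂ b₂).card := by
  classical
  have hsub : bad h (a₁ * a₂) (b₁ * b₂) ⊆ (bad h a₁ b₁).image (fun i => a₂⁻¹ i) ∪ bad h a₂ b₂ := by
    intro i hi
    by_contra hc
    rw [Finset.mem_union, not_or] at hc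
    obtain ⟨h1, h2⟩ := hc
    have h3 : a₂ i ∉ bad h a₁ b₁ := by
      intro h4
      apply h1
      rw [Finset.mem_image]
      exact ⟨a₂ i, h4, by simp⟩
    rw [not_mem_bad] at h2 h3
    refine (not_mem_bad.2 ?_) hi
    rw [Perm.mul_apply, Perm.mul_apply, h2, h3]
  calc (bad h (a₁ * a₂) (b₁ * b₂)).card
      ≤ ((bad h a₁ b₁).image (fun i => a₂⁻¹ i) ∪ bad h a₂ b₂).card := Finset.card_le_card hsub
    _ ≤ ((bad h a₁ b₁).image (fun i => a₂⁻¹ i)).card + (bad h a₂ b₂).card :=
        Finset.card_union_le _ _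
    _ ≤ (bad h a₁ b₁).card + (bad h a₂ b₂).card :=
        Nat.add_le_add_right Finset.card_image_le _

theorem bad_inv {n m : ℕ} (h : n ≤ m) (a : Perm (Fin n)) (b : Perm (Fin m)) :
    (bad h a⁻¹ b⁻¹).card ≤ (bad h a b).card := by
  classical
  have hsub : bad h a⁻¹ b⁻¹ ⊆ (bad h a b).image (fun i => a i) := by
    intro i hi
    by_contra hc
    have h3 : a⁻¹ i ∉ bad h a b := by
      intro h4
      exact hc (Finset.mem_image.2 ⟨a⁻¹ i, h4, by simp⟩)
    rw [not_mem_bad] at h3
    refine (not_mem_bad.2 ?_) hi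
    rw [Perm.inv_eq_iff_eq]
    rw [h3]
    simp
  exact (Finset.card_le_card hsub).trans Finset.card_image_le

theorem bad_word {k : ℕ} (w : FreeGroup (Fin k)) :
    ∃ L : ℕ, ∀ (n m : ℕ) (h : n ≤ m) (x : Fin k → Perm (Fin n)) (y : Fin k → Perm (Fin m)) (D : ℝ),
      0 ≤ D → (∀ j, ((bad h (x j) (y j)).card : ℝ) ≤ D) →
      ((bad h ((FreeGroup.lift x) w) ((FreeGroup.lift y) w)).card : ℝ) ≤ L * D := by
  induction w using FreeGroup.induction_on with
  | C1 =>
    refine ⟨0, fun n m h x y D hD hb => ?_⟩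
    rw [map_one, map_one, bad_one]
    simp
  | of j =>
    refine ⟨1, fun n m h x y D hD hb => ?_⟩
    rw [FreeGroup.lift_apply_of, FreeGroup.lift_apply_of]
    simpa using hb j
  | inv_of j ih =>
    obtain ⟨L, hL⟩ := ih
    refine ⟨L, fun n m h x y D hD hb => ?_⟩
    rw [map_inv, map_inv]
    refine le_trans ?_ (hL n m h x y D hD hb)
    exact_mod_cast bad_inv h _ _
  | mul u v hu hv =>
    obtain ⟨L₁, h₁⟩ := hu
    obtain ⟨L₂, h₂⟩ := hv
    refine ⟨L₁ + L₂, fun n m h x y D hD hb => ?_⟩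
    rw [map_mul, map_mul]
    have := bad_mul h ((FreeGroup.lift x) u) ((FreeGroup.lift x) v) ((FreeGroup.lift y) u)
      ((FreeGroup.lift y) v)
    have h3 := h₁ n m h x y D hD hb
    have h4 := h₂ n m h x y D hD hb
    have h5 : ((bad h ((FreeGroup.lift x) u * (FreeGroup.lift x) v)
        ((FreeGroup.lift y) u * (FreeGroup.lift y) v)).card : ℝ) ≤
        ((bad h ((FreeGroup.lift x) u) ((FreeGroup.lift y) u)).card : ℝ) +
        ((bad h ((FreeGroup.lift x) v) ((FreeGroup.lift y) v)).card : ℝ) := by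
      exact_mod_cast this
    push_cast
    nlinarith

theorem card_ge {n m : ℕ} (h : n ≤ m) :
    (Finset.univ.filter (fun i : Fin m => n ≤ (i : ℕ))).card = m - n := by
  have h1 : (Finset.univ.filter (fun i : Fin m => n ≤ (i : ℕ))).card
      + (Finset.univ.filter (fun i : Fin m => ¬ n ≤ (i : ℕ))).card = m := by
    have := Finset.card_filter_add_card_filter_not (s := (Finset.univ : Finset (Fin m)))
      (p := fun i : Fin m => n ≤ (i : ℕ))
    simpa using this
  have h2 : (Finset.univ.filter (fun i : Fin m => ¬ n ≤ (i : ℕ))).card = n := by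
    have : (Finset.univ.filter (fun i : Fin m => ¬ n ≤ (i : ℕ)))
        = (Finset.univ : Finset (Fin n)).map (Fin.castLEEmb h) := by
      ext i
      simp only [Finset.mem_filter, Finset.mem_univ, true_and, Finset.mem_map]
      constructor
      · intro hi
        exact ⟨⟨i, by omega⟩, rfl⟩
      · rintro ⟨j, rfl⟩
        simp
    rw [this, Finset.card_map]
    simp
  omega

theorem supp_le {n m : ℕ} (h : n ≤ m) (a : Perm (Fin n)) (b : Perm (Fin m)) :
    a.support.card ≤ b.support.card + (bad h a b).card := by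
  classical
  have hsub : a.support.map (Fin.castLEEmb h) ⊆ b.support ∪ (bad h a b).map (Fin.castLEEmb h) := by
    intro i hi
    obtain ⟨j, hj, rfl⟩ := Finset.mem_map.1 hi
    by_cases hb : j ∈ bad h a b
    · exact Finset.mem_union_right _ (Finset.mem_map.2 ⟨j, hb, rfl⟩)
    · refine Finset.mem_union_left _ ?_
      rw [not_mem_bad] at hb
      rw [Perm.mem_support] at hj ⊢
      intro hc
      apply hj
      have : Fin.castLE h (a j) = Fin.castLE h j := by rw [← hb]; exact hc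
      exact Fin.castLE_injective h this
  calc a.support.card = (a.support.map (Fin.castLEEmb h)).card := (Finset.card_map _).symm
    _ ≤ (b.support ∪ (bad h a b).map (Fin.castLEEmb h)).card := Finset.card_le_card hsub
    _ ≤ b.support.card + ((bad h a b).map (Fin.castLEEmb h)).card := Finset.card_union_le _ _
    _ = b.support.card + (bad h a b).card := by rw [Finset.card_map]

theorem supp_ge {n m : ℕ} (h : n ≤ m) (a : Perm (Fin n)) (b : Perm (Fin m)) :
    b.support.card ≤ a.support.card + (bad h a b).card + (m - n) := by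
  classical
  have hsub : b.support ⊆ (a.support.map (Fin.castLEEmb h) ∪ (bad h a b).map (Fin.castLEEmb h)) ∪
      Finset.univ.filter (fun i : Fin m => n ≤ (i : ℕ)) := by
    intro i hi
    by_cases hin : n ≤ (i : ℕ)
    · exact Finset.mem_union_right _ (by simpa using hin)
    · refine Finset.mem_union_left _ ?_
      have hi' : i = Fin.castLE h ⟨i, by omega⟩ := rfl
      by_cases hb : (⟨i, by omega⟩ : Fin n) ∈ bad h a b
      · exact Finset.mem_union_right _ (Finset.mem_map.2 ⟨_, hb, rfl⟩)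
      · refine Finset.mem_union_left _ (Finset.mem_map.2 ⟨⟨i, by omega⟩, ?_, rfl⟩)
        rw [not_mem_bad] at hb
        rw [Perm.mem_support] at hi ⊢
        intro hc
        apply hi
        rw [hc] at hb
        exact hb
  have h1 := Finset.card_le_card hsub
  have h2 := Finset.card_union_le (a.support.map (Fin.castLEEmb h) ∪
    (bad h a b).map (Fin.castLEEmb h)) (Finset.univ.filter (fun i : Fin m => n ≤ (i : ℕ)))
  have h3 := Finset.card_union_le (a.support.map (Fin.castLEEmb h))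
    ((bad h a b).map (Fin.castLEEmb h))
  rw [Finset.card_map, Finset.card_map] at h3
  rw [card_ge h] at h2
  omega

theorem ext_up {n m : ℕ} (h : n ≤ m) (g : Perm (Fin n)) :
    ∃ g' : Perm (Fin m), (bad h g g').card = 0 := by
  classical
  refine ⟨g.viaFintypeEmbedding (Fin.castLEEmb h), ?_⟩
  rw [Finset.card_eq_zero]
  ext i
  simp only [Finset.notMem_empty, iff_false]
  rw [not_mem_bad]
  exact Perm.viaFintypeEmbedding_apply_image g (Fin.castLEEmb h) i

theorem ext_down {n m : ℕ} (h : n ≤ m) (g' : Perm (Fin m)) :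
    ∃ g : Perm (Fin n), (bad h g g').card ≤ m - n := by
  classical
  let p : Fin n → Prop := fun i => ((g' (Fin.castLE h i) : Fin m) : ℕ) < n
  let q : Fin n → Prop := fun i => ((g'⁻¹ (Fin.castLE h i) : Fin m) : ℕ) < n
  let e : {i // p i} ≃ {i // q i} :=
    { toFun := fun i => ⟨⟨g' (Fin.castLE h i.1), i.2⟩, by
        show ((g'⁻¹ (Fin.castLE h ⟨g' (Fin.castLE h i.1), i.2⟩) : Fin m) : ℕ) < n
        have : (Fin.castLE h ⟨g' (Fin.castLE h i.1), i.2⟩ : Fin m) = g' (Fin.castLE h i.1) := rfl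
        rw [this]
        simp⟩
      invFun := fun i => ⟨⟨g'⁻¹ (Fin.castLE h i.1), i.2⟩, by
        show ((g' (Fin.castLE h ⟨g'⁻¹ (Fin.castLE h i.1), i.2⟩) : Fin m) : ℕ) < n
        have : (Fin.castLE h ⟨g'⁻¹ (Fin.castLE h i.1), i.2⟩ : Fin m) = g'⁻¹ (Fin.castLE h i.1) := rfl
        rw [this]
        simp⟩
      left_inv := by
        rintro ⟨i, hi⟩
        apply Subtype.ext
        apply Fin.ext
        show ((g'⁻¹ (Fin.castLE h ⟨g' (Fin.castLE h i), hi⟩) : Fin m) : ℕ) = i
        have : (Fin.castLE h ⟨g' (Fin.castLE h i), hi⟩ : Fin m) = g' (Fin.castLE h i) := rfl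
        rw [this]
        simp
      right_inv := by
        rintro ⟨i, hi⟩
        apply Subtype.ext
        apply Fin.ext
        show ((g' (Fin.castLE h ⟨g'⁻¹ (Fin.castLE h i), hi⟩) : Fin m) : ℕ) = i
        have : (Fin.castLE h ⟨g'⁻¹ (Fin.castLE h i), hi⟩ : Fin m) = g'⁻¹ (Fin.castLE h i) := rfl
        rw [this]
        simp }
  refine ⟨e.extendSubtype, ?_⟩
  have hsub : (bad h e.extendSubtype g').image (fun i => g' (Fin.castLE h i)) ⊆
      Finset.univ.filter (fun i : Fin m => n ≤ (i : ℕ)) := by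
    intro j hj
    obtain ⟨i, hi, rfl⟩ := Finset.mem_image.1 hj
    simp only [Finset.mem_filter, Finset.mem_univ, true_and]
    by_contra hc
    have hp : p i := by
      show ((g' (Fin.castLE h i) : Fin m) : ℕ) < n
      omega
    refine (not_mem_bad.2 ?_) hi
    have h1 := e.extendSubtype_apply_of_mem i hp
    rw [h1]
    rfl
  have hinj : Function.Injective (fun i : Fin n => g' (Fin.castLE h i)) :=
    g'.injective.comp (Fin.castLE_injective h)
  have h2 := Finset.card_le_card hsub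
  rw [Finset.card_image_of_injective _ hinj, card_ge h] at h2
  exact h2

theorem sup_close {α β : Type*} [Finite α] [Finite β] [Nonempty α] [Nonempty β]
    (f : α → ℝ) (f' : β → ℝ) (ε : ℝ)
    (h1 : ∀ a, ∃ b, |f a - f' b| ≤ ε) (h2 : ∀ b, ∃ a, |f a - f' b| ≤ ε) :
    |(⨆ a, f a) - ⨆ b, f' b| ≤ ε := by
  have hf : BddAbove (Set.range f) := (Set.finite_range f).bddAbove
  have hf' : BddAbove (Set.range f') := (Set.finite_range f').bddAbove
  rw [abs_le]
  constructor
  · have : (⨆ b, f' b) ≤ (⨆ a, f a) + ε := by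
      apply ciSup_le
      intro b
      obtain ⟨a, ha⟩ := h2 b
      have := le_ciSup hf a
      have := (abs_le.1 ha).1
      linarith
    linarith
  · have : (⨆ a, f a) ≤ (⨆ b, f' b) + ε := by
      apply ciSup_le
      intro a
      obtain ⟨b, hb⟩ := h1 a
      have := le_ciSup hf' b
      have := (abs_le.1 hb).2
      linarith
    linarith

theorem inf_close {α β : Type*} [Finite α] [Finite β] [Nonempty α] [Nonempty β]
    (f : α → ℝ) (f' : β → ℝ) (ε : ℝ)
    (h1 : ∀ a, ∃ b, |f a - f' b| ≤ ε) (h2 : ∀ b, ∃ a, |f a - f' b| ≤ ε) :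
    |(⨅ a, f a) - ⨅ b, f' b| ≤ ε := by
  have hf : BddBelow (Set.range f) := (Set.finite_range f).bddBelow
  have hf' : BddBelow (Set.range f') := (Set.finite_range f').bddBelow
  rw [abs_le]
  constructor
  · have : (⨅ b, f' b) - ε ≤ ⨅ a, f a := by
      apply le_ciInf
      intro a
      obtain ⟨b, hb⟩ := h1 a
      have := ciInf_le hf' b
      have := (abs_le.1 hb).1
      linarith
    linarith
  · have : (⨅ a, f a) - ε ≤ ⨅ b, f' b := by
      apply le_ciInf
      intro b
      obtain ⟨a, ha⟩ := h2 b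
      have := ciInf_le hf a
      have := (abs_le.1 ha).2
      linarith
    linarith

/-- The induction hypothesis. -/
def Slow (k : ℕ) (ψ : (n : ℕ) → (Fin k → Perm (Fin n)) → ℝ) : Prop :=
  (∃ B : ℝ, ∀ n x, |ψ n x| ≤ B) ∧
  ∀ ε : ℝ, 0 < ε → ∀ᶠ δ in 𝓝[>] (0 : ℝ), ∀ (n m : ℕ) (h : n ≤ m), 1 ≤ n →
    (m : ℝ) - n ≤ δ * n → ∀ (x : Fin k → Perm (Fin n)) (y : Fin k → Perm (Fin m)),
    (∀ j, ((bad h (x j) (y j)).card : ℝ) ≤ δ * n) → |ψ n x - ψ m y| ≤ ε

theorem slow_atom (k : ℕ) (w : FreeGroup (Fin k)) :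
    Slow k (fun (n : ℕ) (x : Fin k → Perm (Fin n)) =>
      (((FreeGroup.lift x) w).support.card : ℝ) / (n : ℝ)) := by
  constructor
  · refine ⟨1, fun n x => ?_⟩
    have h1 : (((FreeGroup.lift x) w).support.card : ℝ) ≤ n := by
      have := Finset.card_le_univ ((FreeGroup.lift x) w).support
      rw [Fintype.card_fin] at this
      exact_mod_cast this
    rw [abs_of_nonneg (by positivity)]
    exact div_le_one_of_le₀ h1 (Nat.cast_nonneg n)
  · intro ε hε
    obtain ⟨L, hL⟩ := bad_word w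
    have hpos : 0 < ε / (L + 2 : ℝ) := by positivity
    filter_upwards [Ioc_mem_nhdsGT hpos] with δ hδ n m h hn hm x y hxy
    have hδ0 : 0 < δ := hδ.1
    have hn0 : (0 : ℝ) < n := by exact_mod_cast hn
    have hmn : (n : ℝ) ≤ m := by exact_mod_cast h
    have hm0 : (0 : ℝ) < m := lt_of_lt_of_le hn0 hmn
    have hb := hL n m h x y (δ * n) (by positivity) hxy
    set a := (FreeGroup.lift x) w
    set b := (FreeGroup.lift y) w
    have e1 : (a.support.card : ℝ) ≤ b.support.card + (bad h a b).card := by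
      exact_mod_cast supp_le h a b
    have e2 : (b.support.card : ℝ) ≤ a.support.card + (bad h a b).card + (m - n) := by
      have := supp_ge h a b
      have h3 : ((m - n : ℕ) : ℝ) = (m : ℝ) - n := Nat.cast_sub h
      rw [← h3]
      exact_mod_cast this
    have e3 : (b.support.card : ℝ) ≤ m := by
      have := Finset.card_le_univ b.support
      rw [Fintype.card_fin] at this
      exact_mod_cast this
    have e4 : δ * (L + 2 : ℝ) ≤ ε := by
      have := hδ.2
      rwa [le_div_iff₀ (by positivity)] at this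
    set A : ℝ := (a.support.card : ℝ)
    set B : ℝ := (b.support.card : ℝ)
    have hB0 : 0 ≤ B := Nat.cast_nonneg _
    have hL0 : (0 : ℝ) ≤ L := Nat.cast_nonneg _
    -- B / n - B / m = B (m - n) / (n m) in [0, (m-n)/n]
    have e5 : B / n - B / m ≤ (m - n) / n := by
      rw [div_sub_div _ _ hn0.ne' hm0.ne', div_le_div_iff₀ (by positivity) hn0]
      have : B * m - n * B = B * (m - n) := by ring
      rw [this]
      nlinarith [mul_le_mul_of_nonneg_right e3 (mul_nonneg (sub_nonneg.2 hmn) hn0.le)]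
    have e6 : 0 ≤ B / n - B / m := by
      rw [sub_nonneg]
      exact div_le_div_of_nonneg_left hB0 hn0 hmn
    have e7 : (m - n) / n ≤ δ := by
      rw [div_le_iff₀ hn0]; exact hm
    have e8 : A / n - B / n ≤ L * δ := by
      rw [← sub_div, div_le_iff₀ hn0]
      nlinarith
    have e9 : -((L + 1) * δ) ≤ A / n - B / n := by
      rw [← sub_div, le_div_iff₀ hn0]
      nlinarith
    rw [abs_le]
    constructor
    · nlinarith
    · nlinarith

theorem slow_conn (k m : ℕ) (c : (Fin m → ℝ) → ℝ)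
    (ψ : Fin m → ((n : ℕ) → (Fin k → Perm (Fin n)) → ℝ)) (hc : Continuous c)
    (hψ : ∀ j, Slow k (ψ j)) :
    Slow k (fun (n : ℕ) (x : Fin k → Perm (Fin n)) => c (fun j => ψ j n x)) := by
  choose B hB using fun j => (hψ j).1
  let K : Set (Fin m → ℝ) := Set.pi Set.univ (fun j => Set.Icc (-(B j)) (B j))
  have hK : IsCompact K := isCompact_univ_pi (fun j => isCompact_Icc)
  have hmem : ∀ n (x : Fin k → Perm (Fin n)), (fun j => ψ j n x) ∈ K := by
    intro n x j _
    exact abs_le.1 (hB j n x)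
  constructor
  · obtain ⟨C, hC⟩ := hK.exists_bound_of_continuousOn hc.continuousOn
    exact ⟨C, fun n x => hC _ (hmem n x)⟩
  · intro ε hε
    have hu := hK.uniformContinuousOn_of_continuous hc.continuousOn
    rw [Metric.uniformContinuousOn_iff] at hu
    obtain ⟨η, hη, hη'⟩ := hu ε hε
    have hall : ∀ᶠ δ in 𝓝[>] (0 : ℝ), ∀ j, ∀ (n m : ℕ) (h : n ≤ m), 1 ≤ n →
        (m : ℝ) - n ≤ δ * n → ∀ (x : Fin k → Perm (Fin n)) (y : Fin k → Perm (Fin m)),
        (∀ j, ((bad h (x j) (y j)).card : ℝ) ≤ δ * n) → |ψ j n x - ψ j m y| ≤ η / 2 :=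
      eventually_all.2 (fun j => (hψ j).2 (η / 2) (by positivity))
    filter_upwards [hall] with δ hδ n m' h hn hm x y hxy
    have h1 : dist (fun j => ψ j n x) (fun j => ψ j m' y) < η := by
      rw [dist_pi_lt_iff hη]
      intro j
      rw [Real.dist_eq]
      exact lt_of_le_of_lt (hδ j n m' h hn hm x y hxy) (by linarith)
    have h2 := hη' _ (hmem n x) _ (hmem m' y) h1
    rw [Real.dist_eq] at h2
    exact h2.le

theorem snoc_close {k n m : ℕ} (h : n ≤ m) (x : Fin k → Perm (Fin n)) (y : Fin k → Perm (Fin m))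
    (g : Perm (Fin n)) (g' : Perm (Fin m)) (D : ℝ)
    (hxy : ∀ j, ((bad h (x j) (y j)).card : ℝ) ≤ D) (hg : ((bad h g g').card : ℝ) ≤ D) :
    ∀ j : Fin (k + 1), ((bad h (Fin.snoc (α := fun _ => Perm (Fin n)) x g j)
      (Fin.snoc (α := fun _ => Perm (Fin m)) y g' j)).card : ℝ) ≤ D := by
  intro j
  refine Fin.lastCases ?_ (fun i => ?_) j
  · rw [Fin.snoc_last, Fin.snoc_last]; exact hg
  · rw [Fin.snoc_castSucc, Fin.snoc_castSucc]; exact hxy i

theorem close_pair (k : ℕ) (ψ : (n : ℕ) → (Fin (k + 1) → Perm (Fin n)) → ℝ) (ε δ : ℝ)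
    (hδ : 0 < δ)
    (H : ∀ (n m : ℕ) (h : n ≤ m), 1 ≤ n →
      (m : ℝ) - n ≤ δ * n → ∀ (x : Fin (k + 1) → Perm (Fin n)) (y : Fin (k + 1) → Perm (Fin m)),
      (∀ j, ((bad h (x j) (y j)).card : ℝ) ≤ δ * n) → |ψ n x - ψ m y| ≤ ε)
    (n m : ℕ) (h : n ≤ m) (hn : 1 ≤ n) (hm : (m : ℝ) - n ≤ δ * n)
    (x : Fin k → Perm (Fin n)) (y : Fin k → Perm (Fin m))
    (hxy : ∀ j, ((bad h (x j) (y j)).card : ℝ) ≤ δ * n) :
    (∀ g : Perm (Fin n), ∃ g' : Perm (Fin m),
      |ψ n (Fin.snoc (α := fun _ => Perm (Fin n)) x g) -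
        ψ m (Fin.snoc (α := fun _ => Perm (Fin m)) y g')| ≤ ε) ∧
    (∀ g' : Perm (Fin m), ∃ g : Perm (Fin n),
      |ψ n (Fin.snoc (α := fun _ => Perm (Fin n)) x g) -
        ψ m (Fin.snoc (α := fun _ => Perm (Fin m)) y g')| ≤ ε) := by
  constructor
  · intro g
    obtain ⟨g', hg'⟩ := ext_up h g
    refine ⟨g', H n m h hn hm _ _ (snoc_close h x y g g' _ hxy ?_)⟩
    rw [hg']
    simp only [Nat.cast_zero]
    positivity
  · intro g'
    obtain ⟨g, hg⟩ := ext_down h g'
    refine ⟨g, H n m h hn hm _ _ (snoc_close h x y g g' _ hxy ?_)⟩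
    refine le_trans ?_ hm
    have h3 : ((m - n : ℕ) : ℝ) = (m : ℝ) - n := Nat.cast_sub h
    rw [← h3]
    exact_mod_cast hg

theorem slow_sup (k : ℕ) (ψ : (n : ℕ) → (Fin (k + 1) → Perm (Fin n)) → ℝ)
    (hψ : Slow (k + 1) ψ) :
    Slow k (fun (n : ℕ) (x : Fin k → Perm (Fin n)) =>
      ⨆ g : Perm (Fin n), ψ n (Fin.snoc (α := fun _ => Perm (Fin n)) x g)) := by
  obtain ⟨⟨B, hB⟩, hs⟩ := hψ
  constructor
  · refine ⟨B, fun n x => ?_⟩
    rw [abs_le]
    constructor
    · exact le_trans (abs_le.1 (hB n _)).1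
        (le_ciSup (f := fun g : Perm (Fin n) => ψ n (Fin.snoc (α := fun _ => Perm (Fin n)) x g))
          (Set.finite_range _).bddAbove 1)
    · exact ciSup_le (fun g => (abs_le.1 (hB n _)).2)
  · intro ε hε
    filter_upwards [hs ε hε, self_mem_nhdsWithin] with δ hδ hδ0 n m h hn hm x y hxy
    obtain ⟨h1, h2⟩ := close_pair k ψ ε δ hδ0 hδ n m h hn hm x y hxy
    exact sup_close _ _ ε h1 h2

theorem slow_inf (k : ℕ) (ψ : (n : ℕ) → (Fin (k + 1) → Perm (Fin n)) → ℝ)
    (hψ : Slow (k + 1) ψ) :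
    Slow k (fun (n : ℕ) (x : Fin k → Perm (Fin n)) =>
      ⨅ g : Perm (Fin n), ψ n (Fin.snoc (α := fun _ => Perm (Fin n)) x g)) := by
  obtain ⟨⟨B, hB⟩, hs⟩ := hψ
  constructor
  · refine ⟨B, fun n x => ?_⟩
    rw [abs_le]
    constructor
    · exact le_ciInf (fun g => (abs_le.1 (hB n _)).1)
    · exact le_trans
        (ciInf_le (f := fun g : Perm (Fin n) => ψ n (Fin.snoc (α := fun _ => Perm (Fin n)) x g))
          (Set.finite_range _).bddBelow 1) (abs_le.1 (hB n _)).2
  · intro ε hε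
    filter_upwards [hs ε hε, self_mem_nhdsWithin] with δ hδ hδ0 n m h hn hm x y hxy
    obtain ⟨h1, h2⟩ := close_pair k ψ ε δ hδ0 hδ n m h hn hm x y hxy
    exact inf_close _ _ ε h1 h2

theorem slow_all {k : ℕ} {ψ : (n : ℕ) → (Fin k → Perm (Fin n)) → ℝ} (h : IsFormula k ψ) :
    Slow k ψ := by
  induction h with
  | atom k w => exact slow_atom k w
  | conn k m c ψ hc _ ih => exact slow_conn k m c ψ hc ih
  | sup k ψ _ ih => exact slow_sup k ψ ih
  | inf k ψ _ ih => exact slow_inf k ψ ih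

end Pool.Agent.CSV
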