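import Mathlib
import Pool.Agent.CSV.Main

set_option autoImplicit false

namespace Pool.Agent.CSV

open Equiv Filter Topology

/-- Normalised Hamming length of a permutation of `Fin n`. -/
noncomputable def len {n : ℕ} (g : Perm (Fin n)) : ℝ := (g.support.card : ℝ) / (n : ℝ)

/-- The length of a tile: tiles of class `0` are the long ones. -/
def tl (K L : ℕ) (c : Fin (K + 1)) : ℕ := if (c : ℕ) = 0 then L else (c : ℕ)

/-- The pair of permutations: `y` in place `j`, `x` in the other place. -/
def pr {n : ℕ} (j : Fin 2) (x y : Perm (Fin n)) : Fin 2 → Perm (Fin n) :=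
  Function.update (fun _ => x) j y

end Pool.Agent.CSV
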