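import Mathlib
import Pool.Agent.CSV.Two

set_option autoImplicit false

namespace Pool.Agent.CSV

open Equiv Filter Topology

/-- The number of points of minimal period `d`. -/
private noncomputable def pc {m : ℕ} (x : Perm (Fin m)) (d : ℕ) : ℕ :=
  (Finset.univ.filter (fun i : Fin m => Function.minimalPeriod x i = d)).card

private lemma pow_fix_iff {m : ℕ} (x : Perm (Fin m)) (k : ℕ) (i : Fin m) :
    (x ^ k) i = i ↔ Function.minimalPeriod x i ∣ k := by
  rw [← Function.isPeriodicPt_iff_minimalPeriod_dvd]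
  unfold Function.IsPeriodicPt Function.IsFixedPt
  rw [Equiv.Perm.iterate_eq_pow]

private lemma fix_card {m : ℕ} (x : Perm (Fin m)) (k : ℕ) (hk : 1 ≤ k) :
    (Finset.univ.filter (fun i : Fin m => (x ^ k) i = i)).card = ∑ d ∈ k.divisors, pc x d := by
  rw [Finset.card_eq_sum_card_fiberwise (f := fun i => Function.minimalPeriod x i)
    (t := k.divisors)]
  · refine Finset.sum_congr rfl fun d hd => ?_
    unfold pc
    congr 1
    ext i
    simp only [Finset.mem_filter, Finset.mem_univ, true_and]
    constructor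
    · exact fun h => h.2
    · intro h
      exact ⟨(pow_fix_iff x k i).2 (h ▸ Nat.dvd_of_mem_divisors hd), h⟩
  · intro i hi
    have hi2 : (x ^ k) i = i := by
      have := Finset.mem_coe.mp hi
      exact (Finset.mem_filter.mp this).2
    exact Finset.mem_coe.mpr (Nat.mem_divisors.mpr ⟨(pow_fix_iff x k i).1 hi2, by omega⟩)

private lemma len_eq {m : ℕ} (x : Perm (Fin m)) (k : ℕ) (hk : 1 ≤ k) :
    ((∑ d ∈ k.divisors, pc x d : ℕ) : ℝ) = m - m * len (x ^ k) := by
  rw [← fix_card x k hk]
  have h1 : (Finset.univ.filter (fun i : Fin m => (x ^ k) i = i)).card + (x ^ k).support.card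
      = m := by
    have h2 := Finset.card_filter_add_card_filter_not (s := (Finset.univ : Finset (Fin m)))
      (fun i : Fin m => (x ^ k) i = i)
    rw [Finset.card_univ, Fintype.card_fin] at h2
    have h3 : (x ^ k).support = Finset.univ.filter (fun i : Fin m => ¬ (x ^ k) i = i) := by
      ext i
      simp [Equiv.Perm.mem_support]
    rw [h3]
    exact h2
  have h4 : ((Finset.univ.filter (fun i : Fin m => (x ^ k) i = i)).card : ℝ)
      + ((x ^ k).support.card : ℝ) = m := by exact_mod_cast h1
  unfold len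
  rcases Nat.eq_zero_or_pos m with hm | hm
  · subst hm
    have h5 : (x ^ k).support.card = 0 := by
      have := Finset.card_le_univ (x ^ k).support
      rw [Fintype.card_fin] at this
      omega
    rw [h5] at h4 ⊢
    simp only [Nat.cast_zero, add_zero] at h4
    rw [h4]
    simp
  · have : (m : ℝ) ≠ 0 := by positivity
    rw [mul_div_cancel₀ _ this]
    linarith

/-- M2. Powers determine the numbers of points of minimal period `k`, `1 ≤ k ≤ K`
(strong induction on `k`: Fix(x^k) is the disjoint union of the period-`d` points, `d ∣ k`,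
so the errors satisfy `e_k ≤ δ m + ∑_{d < k} e_d ≤ 2^k δ m`). -/
theorem per_close (m K : ℕ) (δ : ℝ) (hδ : 0 ≤ δ) (x x' : Perm (Fin m))
    (h : ∀ k ≤ K, |len (x ^ k) - len (x' ^ k)| ≤ δ) (k : ℕ) (hk : 1 ≤ k) (hkK : k ≤ K) :
    |((Finset.univ.filter (fun i : Fin m => Function.minimalPeriod x i = k)).card : ℝ) -
      ((Finset.univ.filter (fun i : Fin m => Function.minimalPeriod x' i = k)).card : ℝ)|
      ≤ 2 ^ k * δ * m := by
  change |(pc x k : ℝ) - (pc x' k : ℝ)| ≤ 2 ^ k * δ * m
  induction k using Nat.strong_induction_on with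
  | _ k ih =>
    have hk0 : k ≠ 0 := by omega
    have e1 := len_eq x k hk
    have e2 := len_eq x' k hk
    rw [← Nat.cons_self_properDivisors hk0, Finset.sum_cons] at e1 e2
    push_cast at e1 e2
    have e3 : (pc x k : ℝ) - pc x' k = m * (len (x' ^ k) - len (x ^ k))
        - ∑ d ∈ k.properDivisors, ((pc x d : ℝ) - pc x' d) := by
      rw [Finset.sum_sub_distrib]
      linarith
    have hm0 : (0 : ℝ) ≤ m := Nat.cast_nonneg m
    have b1 : |(m : ℝ) * (len (x' ^ k) - len (x ^ k))| ≤ m * δ := by
      rw [abs_mul, abs_of_nonneg hm0, abs_sub_comm]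
      exact mul_le_mul_of_nonneg_left (h k hkK) hm0
    have b2 : |∑ d ∈ k.properDivisors, ((pc x d : ℝ) - pc x' d)| ≤
        ∑ d ∈ Finset.Ico 1 k, 2 ^ d * δ * m := by
      calc |∑ d ∈ k.properDivisors, ((pc x d : ℝ) - pc x' d)|
          ≤ ∑ d ∈ k.properDivisors, |(pc x d : ℝ) - pc x' d| := Finset.abs_sum_le_sum_abs _ _
        _ ≤ ∑ d ∈ k.properDivisors, 2 ^ d * δ * m := by
            refine Finset.sum_le_sum fun d hd => ?_
            have hd1 := Nat.mem_properDivisors.mp hd
            have hd0 : 1 ≤ d := Nat.pos_of_dvd_of_pos hd1.1 (by omega)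
            exact ih d hd1.2 hd0 (by omega)
        _ ≤ ∑ d ∈ Finset.Ico 1 k, 2 ^ d * δ * m := by
            refine Finset.sum_le_sum_of_subset_of_nonneg ?_ fun d _ _ => by positivity
            intro d hd
            have hd1 := Nat.mem_properDivisors.mp hd
            exact Finset.mem_Ico.mpr ⟨Nat.pos_of_dvd_of_pos hd1.1 (by omega), hd1.2⟩
    have b3 : ∑ d ∈ Finset.Ico 1 k, (2 : ℝ) ^ d * δ * m = (2 ^ k - 2) * δ * m := by
      rw [← Finset.sum_mul, ← Finset.sum_mul]
      congr 2
      have := geom_sum_Ico (x := (2 : ℝ)) (by norm_num) hk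
      rw [this]
      norm_num
    rw [b3] at b2
    rw [e3]
    have b4 := abs_sub (m * (len (x' ^ k) - len (x ^ k)))
      (∑ d ∈ k.properDivisors, ((pc x d : ℝ) - pc x' d))
    have b5 : (0 : ℝ) ≤ δ * m := by positivity
    nlinarith [b1, b2, b4, b5]

end Pool.Agent.CSV
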