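import Mathlib
import Pool.Agent.CSV.Two

set_option autoImplicit false

namespace Pool.Agent.CSV

open Equiv Filter Topology

theorem per_pos {m : ℕ} (x : Perm (Fin m)) (i : Fin m) : 0 < Function.minimalPeriod x i := by
  have h : (x ^ orderOf x) i = i := by rw [pow_orderOf_eq_one]; rfl
  refine Function.IsPeriodicPt.minimalPeriod_pos (n := orderOf x) (orderOf_pos x) ?_
  show x^[orderOf x] i = i
  rw [Perm.iterate_eq_pow]; exact h

/-- The minimal elements of the cycles. -/
noncomputable def reps {m : ℕ} (x : Perm (Fin m)) : Finset (Fin m) := by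
  classical
  exact Finset.univ.filter (fun r => ∀ p, x.SameCycle r p → r ≤ p)

theorem mem_reps {m : ℕ} {x : Perm (Fin m)} {r : Fin m} :
    r ∈ reps x ↔ ∀ p, x.SameCycle r p → r ≤ p := by
  classical
  simp [reps]

theorem exists_rep {m : ℕ} (x : Perm (Fin m)) (p : Fin m) :
    ∃ r ∈ reps x, ∃ j, j < Function.minimalPeriod x r ∧ (x ^ j) r = p := by
  classical
  let S : Finset (Fin m) := Finset.univ.filter (fun q => x.SameCycle p q)
  have hS : S.Nonempty := ⟨p, by simp [S, Perm.SameCycle.refl]⟩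
  have hmem := S.min'_mem hS
  have hpr : x.SameCycle p (S.min' hS) := by simpa [S] using hmem
  refine ⟨S.min' hS, mem_reps.2 ?_, ?_⟩
  · intro q hq
    apply S.min'_le
    have : x.SameCycle p q := hpr.trans hq
    simpa [S] using this
  · obtain ⟨n, hn⟩ := hpr.symm.exists_nat_pow_eq
    refine ⟨n % Function.minimalPeriod x (S.min' hS), Nat.mod_lt _ (per_pos x _), ?_⟩
    rw [← Perm.iterate_eq_pow, Function.iterate_mod_minimalPeriod_eq, Perm.iterate_eq_pow]
    exact hn

theorem rep_inj {m : ℕ} (x : Perm (Fin m)) (r r' : Fin m) (i j : ℕ) (hr : r ∈ reps x)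
    (hr' : r' ∈ reps x) (hi : i < Function.minimalPeriod x r)
    (hj : j < Function.minimalPeriod x r') (h : (x ^ i) r = (x ^ j) r') : r = r' ∧ i = j := by
  have h1 : x.SameCycle r r' := by
    have a1 : x.SameCycle r ((x ^ i) r) := ⟨(i : ℤ), by simp⟩
    have a2 : x.SameCycle r' ((x ^ j) r') := ⟨(j : ℤ), by simp⟩
    rw [h] at a1
    exact a1.trans a2.symm
  have h2 : r = r' := le_antisymm (mem_reps.1 hr r' h1) (mem_reps.1 hr' r h1.symm)
  subst h2
  refine ⟨rfl, ?_⟩
  rw [← Perm.iterate_eq_pow, ← Perm.iterate_eq_pow] at h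
  exact (Function.iterate_eq_iterate_iff_of_lt_minimalPeriod hi hj).1 h

theorem per_iter {m : ℕ} (x : Perm (Fin m)) (r : Fin m) (j : ℕ) :
    Function.minimalPeriod x ((x ^ j) r) = Function.minimalPeriod x r := by
  rw [← Perm.iterate_eq_pow]
  exact Function.minimalPeriod_apply_iterate
    (Function.minimalPeriod_pos_iff_mem_periodicPts.1 (per_pos x r)) j

/-- M1. Tiles: cut every long cycle of `x` into arcs of length `L` (class `0`), keep every cycle
of length `c ≤ K` (class `c`).
Proof: `R` = set of minimal elements of cycles; `A c = {r ∈ R | minimalPeriod = c}`,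
`A 0 = {x^(L t) r | r ∈ R, K < P r, t < P r / L}`. -/
theorem tiles (m K L : ℕ) (hL : 1 ≤ L) (hLK : L ≤ K) (x : Perm (Fin m)) :
    ∃ A : Fin (K + 1) → Finset (Fin m),
      (∀ (c c' : Fin (K + 1)) (a b : Fin m) (i j : ℕ), a ∈ A c → b ∈ A c' → i < tl K L c →
        j < tl K L c' → (x ^ i) a = (x ^ j) b → c = c' ∧ a = b ∧ i = j) ∧
      (∀ c : Fin (K + 1), (c : ℕ) ≠ 0 → ∀ a ∈ A c, (x ^ (c : ℕ)) a = a) ∧
      (∀ c : Fin (K + 1), (c : ℕ) ≠ 0 → (c : ℕ) * (A c).card =
        (Finset.univ.filter (fun i : Fin m => Function.minimalPeriod x i = (c : ℕ))).card) ∧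
      (K : ℝ) * (L * ((A 0).card : ℝ)) ≥ ((K : ℝ) - L) *
        ((Finset.univ.filter (fun i : Fin m => K < Function.minimalPeriod x i)).card : ℝ) := by
  classical
  let P : Fin m → ℕ := fun i => Function.minimalPeriod x i
  let RL : Finset (Fin m) := (reps x).filter (fun r => K < P r)
  let lg : Finset (Fin m) := (RL.sigma (fun r => Finset.range (P r / L))).image
    (fun q => (x ^ (L * q.2)) q.1)
  let A : Fin (K + 1) → Finset (Fin m) := fun c =>
    if (c : ℕ) = 0 then lg else (reps x).filter (fun r => P r = (c : ℕ))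
  have hA0 : ∀ c : Fin (K + 1), (c : ℕ) = 0 → A c = lg := fun c hc => if_pos hc
  have hA1 : ∀ c : Fin (K + 1), (c : ℕ) ≠ 0 →
      A c = (reps x).filter (fun r => P r = (c : ℕ)) := fun c hc => if_neg hc
  have hdesc : ∀ (c : Fin (K + 1)) (a : Fin m), a ∈ A c → ∃ r ∈ reps x, ∃ s : ℕ,
      a = (x ^ s) r ∧ (∀ i < tl K L c, s + i < P r) ∧
      (((c : ℕ) = 0 ∧ K < P r ∧ L ∣ s) ∨ ((c : ℕ) ≠ 0 ∧ P r = (c : ℕ) ∧ s = 0)) := by
    intro c a ha
    by_cases hc : (c : ℕ) = 0
    · have ha' : a ∈ lg := by rw [hA0 c hc] at ha; exact ha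
      obtain ⟨⟨r, t⟩, hq, rfl⟩ := Finset.mem_image.1 ha'
      rw [Finset.mem_sigma] at hq
      obtain ⟨h1, h2⟩ := hq
      simp only [RL, Finset.mem_filter] at h1
      rw [Finset.mem_range] at h2
      refine ⟨r, h1.1, L * t, rfl, ?_, Or.inl ⟨hc, h1.2, dvd_mul_right _ _⟩⟩
      intro i hi
      simp only [tl, hc, if_true] at hi
      have h3 : L * (t + 1) ≤ P r := by
        have h4 : t + 1 ≤ P r / L := h2
        calc L * (t + 1) ≤ L * (P r / L) := Nat.mul_le_mul_left L h4
          _ ≤ P r := Nat.mul_div_le _ _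
      have : L * (t + 1) = L * t + L := by ring
      omega
    · have ha' : a ∈ (reps x).filter (fun r => P r = (c : ℕ)) := by rw [hA1 c hc] at ha; exact ha
      rw [Finset.mem_filter] at ha'
      refine ⟨a, ha'.1, 0, by simp, ?_, Or.inr ⟨hc, ha'.2, rfl⟩⟩
      intro i hi
      simp only [tl, hc, if_false] at hi
      rw [ha'.2]
      omega
  refine ⟨A, ?_, ?_, ?_, ?_⟩
  · intro c c' a b i j ha hb hi hj hab
    obtain ⟨r, hr, s, rfl, h1, h2⟩ := hdesc c a ha
    obtain ⟨r', hr', s', rfl, h1', h2'⟩ := hdesc c' b hb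
    have e1 : (x ^ (i + s)) r = (x ^ (j + s')) r' := by
      rw [pow_add, pow_add, Perm.mul_apply, Perm.mul_apply]
      exact hab
    have l1 : i + s < P r := by have := h1 i hi; omega
    have l2 : j + s' < P r' := by have := h1' j hj; omega
    obtain ⟨hrr, hij⟩ := rep_inj x r r' _ _ hr hr' l1 l2 e1
    subst hrr
    rcases h2 with ⟨hc0, hK, hLs⟩ | ⟨hc0, hPc, hs0⟩
    · rcases h2' with ⟨hc0', hK', hLs'⟩ | ⟨hc0', hPc', hs0'⟩
      · have hcc : c = c' := Fin.ext (by rw [hc0, hc0'])
        simp only [tl, hc0, if_true] at hi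
        simp only [tl, hc0', if_true] at hj
        obtain ⟨t, rfl⟩ := hLs
        obtain ⟨t', rfl⟩ := hLs'
        have m1 : (i + L * t) % L = i := by rw [Nat.add_mul_mod_self_left, Nat.mod_eq_of_lt hi]
        have m2 : (j + L * t') % L = j := by rw [Nat.add_mul_mod_self_left, Nat.mod_eq_of_lt hj]
        have hij' : i = j := by rw [← m1, ← m2, hij]
        subst hij'
        have : L * t = L * t' := by omega
        exact ⟨hcc, by rw [this], rfl⟩
      · exfalso
        have := c'.2
        omega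
    · rcases h2' with ⟨hc0', hK', hLs'⟩ | ⟨hc0', hPc', hs0'⟩
      · exfalso
        have := c.2
        omega
      · subst hs0 hs0'
        refine ⟨Fin.ext (by rw [← hPc, ← hPc']), rfl, by omega⟩
  · intro c hc a ha
    have ha' : a ∈ (reps x).filter (fun r => P r = (c : ℕ)) := by rw [hA1 c hc] at ha; exact ha
    rw [Finset.mem_filter] at ha'
    rw [← ha'.2, ← Perm.iterate_eq_pow]
    exact Function.iterate_minimalPeriod
  · intro c hc
    have hA : A c = (reps x).filter (fun r => P r = (c : ℕ)) := hA1 c hc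
    rw [hA]
    have himg : (Finset.univ.filter (fun i : Fin m => Function.minimalPeriod x i = (c : ℕ))) =
        (((reps x).filter (fun r => P r = (c : ℕ))) ×ˢ Finset.range (c : ℕ)).image
          (fun q => (x ^ q.2) q.1) := by
      ext p
      simp only [Finset.mem_filter, Finset.mem_univ, true_and, Finset.mem_image,
        Finset.mem_product, Finset.mem_range, Prod.exists]
      constructor
      · intro hp
        obtain ⟨r, hr, j, hj, rfl⟩ := exists_rep x p
        rw [per_iter] at hp
        exact ⟨r, j, ⟨⟨hr, hp⟩, by rw [← hp]; exact hj⟩, rfl⟩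
      · rintro ⟨r, j, ⟨⟨hr, hP⟩, hj⟩, rfl⟩
        rw [per_iter]; exact hP
    rw [himg, Finset.card_image_of_injOn, Finset.card_product, Finset.card_range, mul_comm]
    rintro ⟨r, i⟩ h1 ⟨r', j⟩ h2 h3
    simp only [Finset.coe_product, Finset.coe_filter, Set.mem_prod, Set.mem_ofPred_eq,
      Finset.coe_range, Set.mem_Iio] at h1 h2
    obtain ⟨e1, e2⟩ := rep_inj x r r' i j h1.1.1 h2.1.1 (by show i < P r; rw [h1.1.2]; exact h1.2)
      (by show j < P r'; rw [h2.1.2]; exact h2.2) h3
    rw [e1, e2]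
  · have hA : A 0 = lg := hA0 0 rfl
    rw [hA]
    have hlg : (lg.card : ℕ) = ∑ r ∈ RL, P r / L := by
      have : lg.card = (RL.sigma (fun r => Finset.range (P r / L))).card := by
        apply Finset.card_image_of_injOn
        rintro ⟨r, t⟩ h1 ⟨r', t'⟩ h2 h3
        simp only [Finset.mem_coe, Finset.mem_sigma, Finset.mem_range, RL, Finset.mem_filter]
          at h1 h2
        have b1 : L * t < P r := by
          have h4 : t + 1 ≤ P r / L := h1.2
          have : L * (t + 1) ≤ P r :=
            (Nat.mul_le_mul_left L h4).trans (Nat.mul_div_le _ _)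
          have h5 : L * (t + 1) = L * t + L := by ring
          omega
        have b2 : L * t' < P r' := by
          have h4 : t' + 1 ≤ P r' / L := h2.2
          have : L * (t' + 1) ≤ P r' :=
            (Nat.mul_le_mul_left L h4).trans (Nat.mul_div_le _ _)
          have h5 : L * (t' + 1) = L * t' + L := by ring
          omega
        obtain ⟨e1, e2⟩ := rep_inj x r r' (L * t) (L * t') h1.1.1 h2.1.1 b1 b2 h3
        subst e1
        have : t = t' := Nat.eq_of_mul_eq_mul_left (by omega) e2
        rw [this]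
      rw [this, Finset.card_sigma]
      simp
    have hT : (Finset.univ.filter (fun i : Fin m => K < Function.minimalPeriod x i)).card ≤
        ∑ r ∈ RL, P r := by
      have hsub : (Finset.univ.filter (fun i : Fin m => K < Function.minimalPeriod x i)) ⊆
          RL.biUnion (fun r => (Finset.range (P r)).image (fun j => (x ^ j) r)) := by
        intro p hp
        rw [Finset.mem_filter] at hp
        obtain ⟨r, hr, j, hj, rfl⟩ := exists_rep x p
        rw [per_iter] at hp
        refine Finset.mem_biUnion.2 ⟨r, ?_, Finset.mem_image.2 ⟨j, Finset.mem_range.2 hj, rfl⟩⟩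
        simp only [RL, Finset.mem_filter]
        exact ⟨hr, hp.2⟩
      refine (Finset.card_le_card hsub).trans (Finset.card_biUnion_le.trans ?_)
      apply Finset.sum_le_sum
      intro r _
      exact Finset.card_image_le.trans (by simp)
    have hKL : (L : ℝ) ≤ K := by exact_mod_cast hLK
    have hK0 : (0 : ℝ) < K := by
      have : 0 < K := by omega
      exact_mod_cast this
    have h1 : ((Finset.univ.filter (fun i : Fin m => K < Function.minimalPeriod x i)).card : ℝ) ≤
        ∑ r ∈ RL, (P r : ℝ) := by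
      exact_mod_cast hT
    have h2 : ∑ r ∈ RL, ((K : ℝ) - L) * (P r : ℝ) ≤
        ∑ r ∈ RL, (K : ℝ) * (L * ((P r / L : ℕ) : ℝ)) := by
      apply Finset.sum_le_sum
      intro r hr
      simp only [RL, Finset.mem_filter] at hr
      have h3 : (K : ℝ) ≤ P r := by exact_mod_cast hr.2.le
      have h4 : (P r : ℝ) - L ≤ L * ((P r / L : ℕ) : ℝ) := by
        have h5 : P r < L * (P r / L) + L := by
          have := Nat.lt_mul_div_succ (P r) (by omega : 0 < L)
          have h6 : L * (P r / L + 1) = L * (P r / L) + L := by ring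
          omega
        have h7 : (P r : ℝ) ≤ L * ((P r / L : ℕ) : ℝ) + L := by exact_mod_cast h5.le
        linarith
      have hL0 : (0 : ℝ) ≤ L := Nat.cast_nonneg L
      nlinarith [mul_le_mul_of_nonneg_left h4 hK0.le, mul_le_mul_of_nonneg_left h3 hL0]
    calc ((K : ℝ) - L) *
        ((Finset.univ.filter (fun i : Fin m => K < Function.minimalPeriod x i)).card : ℝ)
        ≤ ((K : ℝ) - L) * ∑ r ∈ RL, (P r : ℝ) :=
          mul_le_mul_of_nonneg_left h1 (by linarith)
      _ = ∑ r ∈ RL, ((K : ℝ) - L) * (P r : ℝ) := Finset.mul_sum _ _ _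
      _ ≤ ∑ r ∈ RL, (K : ℝ) * (L * ((P r / L : ℕ) : ℝ)) := h2
      _ = (K : ℝ) * (L * (lg.card : ℝ)) := by
          rw [hlg]
          push_cast
          rw [Finset.mul_sum, Finset.mul_sum]

end Pool.Agent.CSV
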