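import Mathlib
import Pool.Agent.CSV.Tiles
import Pool.Agent.CSV.Per

set_option autoImplicit false

namespace Pool.Agent.CSV

open Equiv Filter Topology

private noncomputable def np {m : ℕ} (x : Perm (Fin m)) (k : ℕ) : ℕ :=
  (Finset.univ.filter (fun i : Fin m => Function.minimalPeriod x i = k)).card

private noncomputable def nl {m : ℕ} (x : Perm (Fin m)) (K : ℕ) : ℕ :=
  (Finset.univ.filter (fun i : Fin m => K < Function.minimalPeriod x i)).card

private lemma mp_pos {m : ℕ} (x : Perm (Fin m)) (i : Fin m) :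
    0 < Function.minimalPeriod x i := by
  apply Function.minimalPeriod_pos_of_mem_periodicPts
  refine ⟨orderOf x, orderOf_pos x, ?_⟩
  rw [Function.IsPeriodicPt, Function.IsFixedPt, ← Equiv.Perm.coe_pow, pow_orderOf_eq_one]
  rfl

private lemma np_zero {m : ℕ} (x : Perm (Fin m)) : np x 0 = 0 := by
  unfold np
  rw [Finset.card_eq_zero, Finset.filter_eq_empty_iff]
  intro i _ h
  exact (mp_pos x i).ne' h

private lemma sum_np {m : ℕ} (x : Perm (Fin m)) (K : ℕ) :
    ∑ c : Fin (K + 1), np x (c : ℕ) + nl x K = m := by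
  have h1 : ∀ i : Fin m, (∑ c : Fin (K + 1),
      if Function.minimalPeriod x i = (c : ℕ) then 1 else 0)
      + (if K < Function.minimalPeriod x i then 1 else 0) = 1 := by
    intro i
    by_cases h : K < Function.minimalPeriod x i
    · rw [if_pos h, Finset.sum_eq_zero]
      intro c _
      rw [if_neg]
      have := c.2
      omega
    · rw [if_neg h, add_zero,
        Finset.sum_eq_single (⟨Function.minimalPeriod x i, by omega⟩ : Fin (K + 1))]
      · simp
      · intro c _ hc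
        rw [if_neg]
        intro h'
        exact hc (Fin.ext h'.symm)
      · intro h'
        exact absurd (Finset.mem_univ _) h'
  have h2 : ∑ i : Fin m, ((∑ c : Fin (K + 1),
      if Function.minimalPeriod x i = (c : ℕ) then 1 else 0)
      + (if K < Function.minimalPeriod x i then 1 else 0)) = m := by
    rw [Finset.sum_congr rfl (fun i _ => h1 i)]
    simp
  rw [Finset.sum_add_distrib, Finset.sum_comm] at h2
  unfold np nl
  simp only [Finset.card_filter]
  exact h2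

private lemma core {m K L : ℕ} (hL : 1 ≤ L) (x x' : Perm (Fin m))
    (A A' : Fin (K + 1) → Finset (Fin m))
    (hA : ∀ (c c' : Fin (K + 1)) (a b : Fin m) (i j : ℕ), a ∈ A c → b ∈ A c' → i < tl K L c →
      j < tl K L c' → (x ^ i) a = (x ^ j) b → c = c' ∧ a = b ∧ i = j)
    (hA1 : ∀ c : Fin (K + 1), (c : ℕ) ≠ 0 → ∀ a ∈ A c, (x ^ (c : ℕ)) a = a)
    (hA' : ∀ (c c' : Fin (K + 1)) (a b : Fin m) (i j : ℕ), a ∈ A' c → b ∈ A' c' →
      i < tl K L c → j < tl K L c' → (x' ^ i) a = (x' ^ j) b → c = c' ∧ a = b ∧ i = j)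
    (hA1' : ∀ c : Fin (K + 1), (c : ℕ) ≠ 0 → ∀ a ∈ A' c, (x' ^ (c : ℕ)) a = a) :
    (∑ c, min (A c).card (A' c).card * tl K L c ≤ m) ∧
    ∃ h : Perm (Fin m), (bad (le_refl m) (h * x * h⁻¹) x').card
        + ∑ c, min (A c).card (A' c).card * tl K L c ≤ m + min (A 0).card (A' 0).card := by
  classical
  obtain ⟨M, hM⟩ : ∃ M : Fin (K + 1) → ℕ, ∀ c, M c = min (A c).card (A' c).card :=
    ⟨_, fun _ => rfl⟩
  have hMl : ∀ c, M c ≤ (A c).card := fun c => by rw [hM]; exact min_le_left _ _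
  have hMr : ∀ c, M c ≤ (A' c).card := fun c => by rw [hM]; exact min_le_right _ _
  let a : ∀ c : Fin (K + 1), Fin (M c) → Fin m := fun c s =>
    (A c).orderEmbOfFin rfl (Fin.castLE (hMl c) s)
  let a' : ∀ c : Fin (K + 1), Fin (M c) → Fin m := fun c s =>
    (A' c).orderEmbOfFin rfl (Fin.castLE (hMr c) s)
  have ham : ∀ c s, a c s ∈ A c := fun c s => Finset.orderEmbOfFin_mem _ _ _
  have ham' : ∀ c s, a' c s ∈ A' c := fun c s => Finset.orderEmbOfFin_mem _ _ _
  have hai : ∀ c s s', a c s = a c s' → s = s' := by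
    intro c s s' h
    exact Fin.castLE_injective _ (((A c).orderEmbOfFin rfl).injective h)
  have hai' : ∀ c s s', a' c s = a' c s' → s = s' := by
    intro c s s' h
    exact Fin.castLE_injective _ (((A' c).orderEmbOfFin rfl).injective h)
  let φ : (Σ c : Fin (K + 1), Fin (M c) × Fin (tl K L c)) → Fin m := fun p =>
    (x ^ (p.2.2 : ℕ)) (a p.1 p.2.1)
  let φ' : (Σ c : Fin (K + 1), Fin (M c) × Fin (tl K L c)) → Fin m := fun p =>
    (x' ^ (p.2.2 : ℕ)) (a' p.1 p.2.1)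
  have hφ : Function.Injective φ := by
    rintro ⟨c, s, i⟩ ⟨c', s', i'⟩ h
    obtain ⟨hc, hab, hij⟩ := hA c c' _ _ i i' (ham c s) (ham c' s') i.2 i'.2 h
    subst hc
    have h1 := hai _ _ _ hab
    subst h1
    have h2 : i = i' := Fin.ext hij
    subst h2
    rfl
  have hφ' : Function.Injective φ' := by
    rintro ⟨c, s, i⟩ ⟨c', s', i'⟩ h
    obtain ⟨hc, hab, hij⟩ := hA' c c' _ _ i i' (ham' c s) (ham' c' s') i.2 i'.2 h
    subst hc
    have h1 := hai' _ _ _ hab
    subst h1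
    have h2 : i = i' := Fin.ext hij
    subst h2
    rfl
  have hcard : Fintype.card (Σ c : Fin (K + 1), Fin (M c) × Fin (tl K L c))
      = ∑ c, min (A c).card (A' c).card * tl K L c := by
    rw [Fintype.card_sigma]
    refine Finset.sum_congr rfl fun c _ => ?_
    rw [Fintype.card_prod, Fintype.card_fin, Fintype.card_fin, hM]
  have hR : (Finset.univ.image φ).card = ∑ c, min (A c).card (A' c).card * tl K L c := by
    rw [Finset.card_image_of_injective _ hφ, Finset.card_univ, hcard]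
  have hle : ∑ c, min (A c).card (A' c).card * tl K L c ≤ m := by
    rw [← hR]
    have := Finset.card_le_univ (Finset.univ.image φ)
    rwa [Fintype.card_fin] at this
  refine ⟨hle, ?_⟩
  -- the permutation
  let e : {y // y ∈ Set.range φ} ≃ {y // y ∈ Set.range φ'} :=
    (Equiv.ofInjective φ hφ).symm.trans (Equiv.ofInjective φ' hφ')
  let h : Perm (Fin m) := Equiv.extendSubtype (p := fun y => y ∈ Set.range φ)
    (q := fun y => y ∈ Set.range φ') e
  have hh : ∀ p, h (φ p) = φ' p := by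
    intro p
    have h1 : h (φ p) = e ⟨φ p, p, rfl⟩ :=
      Equiv.extendSubtype_apply_of_mem e (φ p) ⟨p, rfl⟩
    rw [h1]
    have h2 : (Equiv.ofInjective φ hφ).symm ⟨φ p, p, rfl⟩ = p :=
      Equiv.ofInjective_symm_apply hφ p
    change ((Equiv.ofInjective φ' hφ') ((Equiv.ofInjective φ hφ).symm ⟨φ p, p, rfl⟩)).1 = _
    rw [h2]
    rfl
  have hgood : ∀ p : (Σ c : Fin (K + 1), Fin (M c) × Fin (tl K L c)),
      x' (h (φ p)) = h (x (φ p)) ∨ ((p.1 : ℕ) = 0 ∧ (p.2.2 : ℕ) + 1 = L) := by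
    rintro ⟨c, s, i⟩
    have hx : x (φ ⟨c, s, i⟩) = (x ^ ((i : ℕ) + 1)) (a c s) := by
      rw [pow_succ']
      rfl
    have hx' : x' (φ' ⟨c, s, i⟩) = (x' ^ ((i : ℕ) + 1)) (a' c s) := by
      rw [pow_succ']
      rfl
    by_cases hi : (i : ℕ) + 1 < tl K L c
    · left
      rw [hh, hx', hx]
      exact (hh ⟨c, s, ⟨(i : ℕ) + 1, hi⟩⟩).symm
    · have hi2 : (i : ℕ) + 1 = tl K L c := by
        have := i.2
        omega
      by_cases hc : (c : ℕ) = 0
      · right
        refine ⟨hc, ?_⟩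
        change (i : ℕ) + 1 = L
        rw [hi2, tl, if_pos hc]
      · left
        have htl : tl K L c = (c : ℕ) := by rw [tl, if_neg hc]
        rw [hh, hx', hx, hi2, htl, hA1 c hc _ (ham c s), hA1' c hc _ (ham' c s)]
        have h0 : 0 < tl K L c := by omega
        exact (hh ⟨c, s, ⟨0, h0⟩⟩).symm
  refine ⟨h, ?_⟩
  have hsub : bad (le_refl m) (h * x * h⁻¹) x' ⊆
      ((Finset.univ.image φ)ᶜ ∪ Finset.univ.image (fun s : Fin (M 0) => (x ^ (L - 1)) (a 0 s))).image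
        (fun p => h p) := by
    intro j hj
    rw [Finset.mem_image]
    refine ⟨h⁻¹ j, ?_, by simp⟩
    rw [Finset.mem_union, Finset.mem_compl]
    by_contra hcon
    rw [not_or, not_not] at hcon
    obtain ⟨h1, h2⟩ := hcon
    obtain ⟨p, _, hp⟩ := Finset.mem_image.1 h1
    rcases hgood p with h3 | ⟨h3, h4⟩
    · rw [hp] at h3
      refine (not_mem_bad.2 ?_) hj
      have h5 : h (h⁻¹ j) = j := by simp
      rw [h5] at h3
      exact h3
    · apply h2
      obtain ⟨c, s, i⟩ := p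
      have hc : c = 0 := Fin.ext h3
      subst hc
      rw [Finset.mem_image]
      refine ⟨s, Finset.mem_univ _, ?_⟩
      rw [← hp]
      have h5 : (i : ℕ) = L - 1 := by
        have h6 : (i : ℕ) + 1 = L := h4
        omega
      change (x ^ (L - 1)) (a 0 s) = (x ^ (i : ℕ)) (a 0 s)
      rw [h5]
  have h1 := Finset.card_le_card hsub
  have h2 := Finset.card_image_le (s := (Finset.univ.image φ)ᶜ ∪
    Finset.univ.image (fun s : Fin (M 0) => (x ^ (L - 1)) (a 0 s))) (f := fun p => h p)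
  have h3 := Finset.card_union_le (Finset.univ.image φ)ᶜ
    (Finset.univ.image (fun s : Fin (M 0) => (x ^ (L - 1)) (a 0 s)))
  have h4 : (Finset.univ.image φ)ᶜ.card = m - (Finset.univ.image φ).card := by
    rw [Finset.card_compl, Fintype.card_fin]
  have h5 : (Finset.univ.image (fun s : Fin (M 0) => (x ^ (L - 1)) (a 0 s))).card ≤ M 0 := by
    refine Finset.card_image_le.trans ?_
    rw [Finset.card_univ, Fintype.card_fin]
  rw [h4, hR] at h3
  have h6 := hM 0
  omega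

/-- M3. Two permutations of `Fin m` whose powers have nearly equal lengths are nearly conjugate.
Proof: `L ≥ 4/ε`, `K ≥ 4 L/ε`, `δ = ε / 2^(K+4)`; tiles `A` of `x`, `A'` of `x'`;
`M c = min |A c| |A' c|`, enumerations `a c : Fin (M c) ↪ A c`, `a' c : Fin (M c) ↪ A' c`;
index type `I = Σ c : Fin (K+1), Fin (M c) × Fin (tl K L c)`, injective
`φ (c, s, i) = x^i (a c s)`, `φ' (c, s, i) = x'^i (a' c s)`; `h` a permutation with
`h ∘ φ = φ'` (`Equiv.extendSubtype`).  `h x p ≠ x' h p` only for `p` outside the range of `φ`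
(at most `2 · 2^(K+1) δ m + (L/K) m` points) or the last point of a tile of class `0`
(at most `m / L` points). -/
theorem approx_conj (ε : ℝ) (hε : 0 < ε) :
    ∃ (K : ℕ) (δ : ℝ), 0 < δ ∧ ∀ (m : ℕ) (x x' : Perm (Fin m)),
      (∀ k ≤ K, |len (x ^ k) - len (x' ^ k)| ≤ δ) →
      ∃ h : Perm (Fin m), ((bad (le_refl m) (h * x * h⁻¹) x').card : ℝ) ≤ ε * m := by
  obtain ⟨L0, hL0⟩ := exists_nat_ge (4 / ε)
  obtain ⟨L, hL1, hL2⟩ : ∃ L : ℕ, 1 ≤ L ∧ 4 / ε ≤ L :=
    ⟨L0 + 1, by omega, by push_cast; linarith⟩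
  obtain ⟨K0, hK0⟩ := exists_nat_ge (4 * L / ε)
  obtain ⟨K, hK1, hK2⟩ : ∃ K : ℕ, L ≤ K ∧ 4 * L / ε ≤ K :=
    ⟨K0 + L, by omega, by push_cast; linarith [(Nat.cast_nonneg L : (0 : ℝ) ≤ L)]⟩
  have hLr : (0 : ℝ) < L := by exact_mod_cast (by omega : 0 < L)
  have hKr : (0 : ℝ) < K := by exact_mod_cast (by omega : 0 < K)
  refine ⟨K, ε / 2 ^ (K + 4), by positivity, fun m x x' hx => ?_⟩
  have hmr : (0 : ℝ) ≤ m := Nat.cast_nonneg m
  obtain ⟨A, hA, hA1, hA2, hA3⟩ := tiles m K L hL1 hK1 x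
  obtain ⟨A', hA', hA1', hA2', hA3'⟩ := tiles m K L hL1 hK1 x'
  obtain ⟨hle, h, hh⟩ := core hL1 x x' A A' hA hA1 hA' hA1'
  refine ⟨h, ?_⟩
  -- the differences of the numbers of points of given period
  have hd : ∀ c : Fin (K + 1), |(np x (c : ℕ) : ℝ) - (np x' (c : ℕ) : ℝ)| ≤
      2 ^ (c : ℕ) * (ε / 2 ^ (K + 4)) * m := by
    intro c
    by_cases hc : (c : ℕ) = 0
    · rw [hc, np_zero, np_zero, sub_self, abs_zero]
      positivity
    · exact per_close m K (ε / 2 ^ (K + 4)) (by positivity) x x' hx (c : ℕ) (by omega)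
        (by have := c.2; omega)
  obtain ⟨D, hD⟩ : ∃ D : ℝ, D = ∑ c : Fin (K + 1), |(np x (c : ℕ) : ℝ) - (np x' (c : ℕ) : ℝ)| :=
    ⟨_, rfl⟩
  have hD0 : 0 ≤ D := by
    rw [hD]
    exact Finset.sum_nonneg fun _ _ => abs_nonneg _
  have hDle : D ≤ ε / 8 * m := by
    have h1 : D ≤ ∑ c : Fin (K + 1), 2 ^ (c : ℕ) * (ε / 2 ^ (K + 4)) * m := by
      rw [hD]
      exact Finset.sum_le_sum fun c _ => hd c
    have h2 : ∑ c : Fin (K + 1), (2 : ℝ) ^ (c : ℕ) * (ε / 2 ^ (K + 4)) * m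
        = (2 ^ (K + 1) - 1) * (ε / 2 ^ (K + 4)) * m := by
      rw [← Finset.sum_mul, ← Finset.sum_mul,
        Fin.sum_univ_eq_sum_range (fun i => (2 : ℝ) ^ i) (K + 1), geom_sum_eq (by norm_num)]
      norm_num
    have h3 : (2 ^ (K + 1) - 1) * (ε / 2 ^ (K + 4)) * m ≤ 2 ^ (K + 1) * (ε / 2 ^ (K + 4)) * m := by
      have : 0 ≤ (ε / 2 ^ (K + 4)) * m := by positivity
      nlinarith
    have h4 : (2 : ℝ) ^ (K + 1) * (ε / 2 ^ (K + 4)) * m = ε / 8 * m := by
      have e : (2 : ℝ) ^ (K + 4) = 2 ^ (K + 1) * 8 := by ring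
      rw [e]
      field_simp
    rw [h2] at h1
    linarith
  have hs : ∑ c : Fin (K + 1), (np x (c : ℕ) : ℝ) + (nl x K : ℝ) = m := by
    exact_mod_cast sum_np x K
  have hs' : ∑ c : Fin (K + 1), (np x' (c : ℕ) : ℝ) + (nl x' K : ℝ) = m := by
    exact_mod_cast sum_np x' K
  have hsn : 0 ≤ ∑ c : Fin (K + 1), (np x (c : ℕ) : ℝ) :=
    Finset.sum_nonneg fun _ _ => Nat.cast_nonneg _
  have hsn' : 0 ≤ ∑ c : Fin (K + 1), (np x' (c : ℕ) : ℝ) :=
    Finset.sum_nonneg fun _ _ => Nat.cast_nonneg _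
  have hdiff : ∑ c : Fin (K + 1), (np x' (c : ℕ) : ℝ) ≤ ∑ c : Fin (K + 1), (np x (c : ℕ) : ℝ) + D := by
    rw [hD, ← Finset.sum_add_distrib]
    refine Finset.sum_le_sum fun c _ => ?_
    have := neg_abs_le ((np x (c : ℕ) : ℝ) - (np x' (c : ℕ) : ℝ))
    linarith
  -- the classes
  obtain ⟨f, hf⟩ : ∃ f : Fin (K + 1) → ℝ, ∀ c, f c =
      (min (A c).card (A' c).card : ℕ) * (tl K L c : ℝ) := ⟨_, fun _ => rfl⟩
  have hS : ((∑ c, min (A c).card (A' c).card * tl K L c : ℕ) : ℝ) = ∑ c, f c := by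
    push_cast
    refine Finset.sum_congr rfl fun c _ => ?_
    rw [hf]
    push_cast
    rfl
  have hfn : ∀ c, 0 ≤ f c := fun c => by rw [hf]; positivity
  have hfc : ∀ i : Fin K, (np x ((i.succ : Fin (K + 1)) : ℕ) : ℝ) -
      |(np x ((i.succ : Fin (K + 1)) : ℕ) : ℝ) - (np x' ((i.succ : Fin (K + 1)) : ℕ) : ℝ)| ≤
      f i.succ := by
    intro i
    have hc : ((i.succ : Fin (K + 1)) : ℕ) ≠ 0 := by simp
    have htl : tl K L i.succ = ((i.succ : Fin (K + 1)) : ℕ) := by rw [tl, if_neg hc]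
    have h1 : (((i.succ : Fin (K + 1)) : ℕ) : ℝ) * ((A i.succ).card : ℝ) =
        (np x ((i.succ : Fin (K + 1)) : ℕ) : ℝ) := by
      exact_mod_cast hA2 i.succ hc
    have h1' : (((i.succ : Fin (K + 1)) : ℕ) : ℝ) * ((A' i.succ).card : ℝ) =
        (np x' ((i.succ : Fin (K + 1)) : ℕ) : ℝ) := by
      exact_mod_cast hA2' i.succ hc
    rw [hf, htl]
    rcases le_total (A i.succ).card (A' i.succ).card with h2 | h2
    · rw [min_eq_left h2, mul_comm, h1]
      have := abs_nonneg ((np x ((i.succ : Fin (K + 1)) : ℕ) : ℝ) -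
        (np x' ((i.succ : Fin (K + 1)) : ℕ) : ℝ))
      linarith
    · rw [min_eq_right h2, mul_comm, h1']
      have := le_abs_self ((np x ((i.succ : Fin (K + 1)) : ℕ) : ℝ) -
        (np x' ((i.succ : Fin (K + 1)) : ℕ) : ℝ))
      linarith
  have hLK : (L : ℝ) * m ≤ K * (ε / 4 * m) := by
    rw [div_le_iff₀ hε] at hK2
    nlinarith
  have hf0 : (nl x K : ℝ) - D - ε / 4 * m ≤ f 0 := by
    have htl : tl K L 0 = L := by simp [tl]
    have hkey : (K : ℝ) * ((nl x K : ℝ) - D - ε / 4 * m) ≤ K * f 0 := by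
      rw [hf, htl]
      rcases le_total (A 0).card (A' 0).card with h2 | h2
      · rw [min_eq_left h2]
        have h3 : ((K : ℝ) - L) * (nl x K : ℝ) ≤ (K : ℝ) * (L * ((A 0).card : ℝ)) := hA3
        have h4 : (nl x K : ℝ) ≤ m := by linarith
        nlinarith
      · rw [min_eq_right h2]
        have h3 : ((K : ℝ) - L) * (nl x' K : ℝ) ≤ (K : ℝ) * (L * ((A' 0).card : ℝ)) := hA3'
        have h4 : (nl x' K : ℝ) ≤ m := by linarith
        have h5 : (nl x K : ℝ) - D ≤ (nl x' K : ℝ) := by linarith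
        nlinarith
    exact le_of_mul_le_mul_left hkey hKr
  have hsum : (m : ℝ) - 2 * D - ε / 4 * m ≤ ∑ c, f c := by
    rw [Fin.sum_univ_succ]
    have h1 : ∑ i : Fin K, ((np x ((i.succ : Fin (K + 1)) : ℕ) : ℝ) -
        |(np x ((i.succ : Fin (K + 1)) : ℕ) : ℝ) - (np x' ((i.succ : Fin (K + 1)) : ℕ) : ℝ)|) ≤
        ∑ i : Fin K, f i.succ := Finset.sum_le_sum fun i _ => hfc i
    rw [Finset.sum_sub_distrib] at h1
    rw [Fin.sum_univ_succ] at hs hD
    have h2 : (np x ((0 : Fin (K + 1)) : ℕ) : ℝ) = 0 := by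
      have : np x ((0 : Fin (K + 1)) : ℕ) = 0 := np_zero x
      rw [this, Nat.cast_zero]
    rw [h2] at hs
    have h3 := abs_nonneg ((np x ((0 : Fin (K + 1)) : ℕ) : ℝ) -
      (np x' ((0 : Fin (K + 1)) : ℕ) : ℝ))
    linarith
  have hSm : ∑ c, f c ≤ m := by
    rw [← hS]
    exact_mod_cast hle
  have hM0 : ((min (A 0).card (A' 0).card : ℕ) : ℝ) ≤ ε / 4 * m := by
    have htl : tl K L 0 = L := by simp [tl]
    have h1 : f 0 ≤ ∑ c, f c := Finset.single_le_sum (fun c _ => hfn c) (Finset.mem_univ 0)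
    rw [hf 0, htl] at h1
    have h2 : ((min (A 0).card (A' 0).card : ℕ) : ℝ) * L ≤ m := h1.trans hSm
    have h3 : 0 ≤ ((min (A 0).card (A' 0).card : ℕ) : ℝ) := Nat.cast_nonneg _
    rw [div_le_iff₀ hε] at hL2
    nlinarith [mul_le_mul_of_nonneg_left hL2 h3]
  have hfin : ((bad (le_refl m) (h * x * h⁻¹) x').card : ℝ) + ∑ c, f c ≤
      m + ((min (A 0).card (A' 0).card : ℕ) : ℝ) := by
    rw [← hS]
    exact_mod_cast hh
  have : 0 ≤ ε * m := by positivity
  linarith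

end Pool.Agent.CSV
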