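import Mathlib
import Pool.Agent.CSV.Conj

set_option autoImplicit false

namespace Pool.Agent.CSV

open Equiv Filter Topology

/-- M4. The blow-up homomorphism `S_n → S_m`, `m = q n + r` (`q` copies, identity on `r` points). -/
theorem exists_blow (n m : ℕ) (hn : 1 ≤ n) (hnm : n ≤ m) :
    ∃ B : Perm (Fin n) →* Perm (Fin m), ∀ g, |len (B g) - len g| ≤ (n : ℝ) / m := by
  classical
  obtain ⟨q, hq⟩ : ∃ q, q = m / n := ⟨_, rfl⟩
  obtain ⟨r, hr⟩ : ∃ r, r = m % n := ⟨_, rfl⟩
  have hqr : q * n + r = m := by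
    rw [hq, hr, mul_comm]
    exact Nat.div_add_mod m n
  have hrn : r < n := by
    rw [hr]
    exact Nat.mod_lt _ (by omega)
  obtain ⟨e⟩ : Nonempty ((Fin q × Fin n) ⊕ Fin r ≃ Fin m) :=
    ⟨(Equiv.sumCongr finProdFinEquiv (Equiv.refl _)).trans (finSumFinEquiv.trans (finCongr hqr))⟩
  let B : Perm (Fin n) →* Perm (Fin m) :=
    { toFun := fun g => e.permCongr
        (Equiv.sumCongr (Equiv.prodCongr (Equiv.refl (Fin q)) g) (Equiv.refl (Fin r)))
      map_one' := by
        ext i
        obtain ⟨x, rfl⟩ := e.surjective i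
        rcases x with ⟨a, b⟩ | c <;> simp
      map_mul' := by
        intro g h
        ext i
        obtain ⟨x, rfl⟩ := e.surjective i
        rcases x with ⟨a, b⟩ | c <;> simp }
  have hBe : ∀ g x, B g (e x) =
      e (Equiv.sumCongr (Equiv.prodCongr (Equiv.refl (Fin q)) g) (Equiv.refl (Fin r)) x) := by
    intro g x
    change e.permCongr _ (e x) = _
    rw [Equiv.permCongr_apply, Equiv.symm_apply_apply]
  have hcard : ∀ g, (B g).support.card = q * g.support.card := by
    intro g
    have hsupp : (B g).support =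
        ((Finset.univ ×ˢ g.support : Finset (Fin q × Fin n)).map
          Function.Embedding.inl).map e.toEmbedding := by
      ext i
      obtain ⟨x, rfl⟩ := e.surjective i
      rw [Perm.mem_support, hBe]
      rcases x with ⟨a, b⟩ | c <;> simp
    rw [hsupp, Finset.card_map, Finset.card_map, Finset.card_product]
    simp
  refine ⟨B, fun g => ?_⟩
  have hs : g.support.card ≤ n := by
    have := Finset.card_le_univ g.support
    simpa using this
  have hn0 : (0 : ℝ) < n := by exact_mod_cast hn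
  have hm0 : (0 : ℝ) < m := by exact_mod_cast (by omega : 0 < m)
  have hs' : (g.support.card : ℝ) ≤ n := by exact_mod_cast hs
  have hr' : (r : ℝ) ≤ n := by exact_mod_cast hrn.le
  have hqr' : (q : ℝ) * n + r = m := by exact_mod_cast hqr
  unfold len
  rw [hcard]
  push_cast
  have hid : (q : ℝ) * (g.support.card : ℝ) / m - (g.support.card : ℝ) / n =
      - (g.support.card * r / (n * m)) := by
    field_simp
    rw [← hqr']
    ring
  rw [hid, abs_neg, abs_of_nonneg (by positivity), div_le_div_iff₀ (by positivity) hm0]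
  have h1 : (g.support.card : ℝ) * r ≤ n * n :=
    mul_le_mul hs' hr' (by positivity) hn0.le
  calc (g.support.card : ℝ) * r * m ≤ n * n * m := mul_le_mul_of_nonneg_right h1 hm0.le
    _ = n * (n * m) := by ring

private theorem bad_self {m : ℕ} (a : Perm (Fin m)) : (bad (le_refl m) a a).card = 0 := by
  rw [Finset.card_eq_zero]
  ext i
  simp [bad]

private theorem len_close {m : ℕ} (hm : (0 : ℝ) < m) (a b : Perm (Fin m)) :
    |len a - len b| ≤ ((bad (le_refl m) a b).card : ℝ) / m := by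
  have h1 := supp_le (le_refl m) a b
  have h2 := supp_ge (le_refl m) a b
  have h1' : (a.support.card : ℝ) ≤ b.support.card + (bad (le_refl m) a b).card := by
    exact_mod_cast h1
  have h2' : (b.support.card : ℝ) ≤ a.support.card + (bad (le_refl m) a b).card := by
    have : b.support.card ≤ a.support.card + (bad (le_refl m) a b).card := by omega
    exact_mod_cast this
  unfold len
  rw [← sub_div, abs_div, abs_of_pos hm]
  refine div_le_div_of_nonneg_right ?_ hm.le
  rw [abs_le]
  constructor <;> linarith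

private theorem lift_conj {n m : ℕ} (j : Fin 2) (B : Perm (Fin n) →* Perm (Fin m))
    (h : Perm (Fin m)) (x y : Perm (Fin n)) (w : FreeGroup (Fin 2)) :
    (FreeGroup.lift (pr j (h * B x * h⁻¹) (h * B y * h⁻¹))) w =
      h * B ((FreeGroup.lift (pr j x y)) w) * h⁻¹ := by
  have e : FreeGroup.lift (pr j (h * B x * h⁻¹) (h * B y * h⁻¹)) =
      ((MulAut.conj h).toMonoidHom.comp (B.comp (FreeGroup.lift (pr j x y)))) := by
    apply FreeGroup.ext_hom
    intro i
    simp only [FreeGroup.lift_apply_of, MonoidHom.comp_apply, MulEquiv.coe_toMonoidHom,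
      MulAut.conj_apply]
    unfold pr
    by_cases hi : i = j
    · subst hi
      simp
    · rw [Function.update_of_ne hi, Function.update_of_ne hi]
  rw [e]
  rfl

private theorem len_conj {m : ℕ} (h g : Perm (Fin m)) : len (h * g * h⁻¹) = len g := by
  unfold len
  rw [Equiv.Perm.card_support_conj]

/-- M5. Transfer upwards: from `approx_conj`, `exists_blow`, `bad_word`, `supp_le`, `supp_ge`
(`y' = h (B y) h⁻¹`). -/
theorem blow (j : Fin 2) (W : Finset (FreeGroup (Fin 2))) (ε : ℝ) (hε : 0 < ε) :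
    ∃ (K : ℕ) (δ : ℝ), 0 < δ ∧ ∀ (n m : ℕ), 1 ≤ n → (n : ℝ) ≤ δ * m →
      ∀ (x y : Perm (Fin n)) (x' : Perm (Fin m)),
      (∀ k ≤ K, |len (x ^ k) - len (x' ^ k)| ≤ δ) →
      ∃ y' : Perm (Fin m), ∀ w ∈ W,
        |len ((FreeGroup.lift (pr j x y)) w) - len ((FreeGroup.lift (pr j x' y')) w)| ≤ ε := by
  classical
  choose L hL using fun w : FreeGroup (Fin 2) => bad_word w
  obtain ⟨Lm, hLm⟩ : ∃ Lm : ℕ, ∀ w ∈ W, L w ≤ Lm := ⟨W.sup L, fun w hw => Finset.le_sup hw⟩
  obtain ⟨K, δ0, hδ0, hac⟩ := approx_conj (ε / (2 * (Lm + 1))) (by positivity)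
  obtain ⟨δ, hδ⟩ : ∃ δ, δ = min (min 1 (ε / 2)) (δ0 / 2) := ⟨_, rfl⟩
  have hδ1 : δ ≤ 1 := by rw [hδ]; exact (min_le_left _ _).trans (min_le_left _ _)
  have hδε : δ ≤ ε / 2 := by rw [hδ]; exact (min_le_left _ _).trans (min_le_right _ _)
  have hδδ : δ ≤ δ0 / 2 := by rw [hδ]; exact min_le_right _ _
  have hδp : 0 < δ := by rw [hδ]; positivity
  refine ⟨K, δ, hδp, ?_⟩
  intro n m hn hnm x y x' hx
  have hn1 : (1 : ℝ) ≤ n := by exact_mod_cast hn
  have hm0 : (0 : ℝ) < m := by
    by_contra h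
    have h1 : (m : ℝ) ≤ 0 := not_lt.1 h
    have h2 : δ * m ≤ 0 := mul_nonpos_of_nonneg_of_nonpos hδp.le h1
    linarith
  have hnm' : n ≤ m := by
    have h1 : δ * (m : ℝ) ≤ 1 * m := mul_le_mul_of_nonneg_right hδ1 hm0.le
    have h2 : (n : ℝ) ≤ m := by linarith
    exact_mod_cast h2
  have hq : (n : ℝ) / m ≤ δ := by
    rw [div_le_iff₀ hm0]
    exact hnm
  obtain ⟨B, hB⟩ := exists_blow n m hn hnm'
  obtain ⟨h, hh⟩ := hac m (B x) x' (fun k hk => by
    have h1 := hB (x ^ k)
    have h2 := hx k hk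
    rw [map_pow] at h1
    have h3 := abs_sub_le (len (B x ^ k)) (len (x ^ k)) (len (x' ^ k))
    linarith)
  refine ⟨h * B y * h⁻¹, fun w hw => ?_⟩
  have h1 := hL w m m (le_refl m) (pr j (h * B x * h⁻¹) (h * B y * h⁻¹)) (pr j x' (h * B y * h⁻¹))
    (ε / (2 * (Lm + 1)) * m) (by positivity) (by
      intro i
      unfold pr
      by_cases hi : i = j
      · subst hi
        rw [Function.update_self, Function.update_self, bad_self]
        simp only [Nat.cast_zero]
        positivity
      · rw [Function.update_of_ne hi, Function.update_of_ne hi]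
        exact hh)
  rw [lift_conj] at h1
  have h2 := len_close hm0 (h * B ((FreeGroup.lift (pr j x y)) w) * h⁻¹)
    ((FreeGroup.lift (pr j x' (h * B y * h⁻¹))) w)
  rw [len_conj] at h2
  have h3 := hB ((FreeGroup.lift (pr j x y)) w)
  have h4 : ((bad (le_refl m) (h * B ((FreeGroup.lift (pr j x y)) w) * h⁻¹)
      ((FreeGroup.lift (pr j x' (h * B y * h⁻¹))) w)).card : ℝ) / m ≤ ε / 2 := by
    rw [div_le_iff₀ hm0]
    refine h1.trans ?_
    have h5 : (L w : ℝ) ≤ Lm + 1 := by
      have : (L w : ℝ) ≤ Lm := by exact_mod_cast hLm w hw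
      linarith
    calc (L w : ℝ) * (ε / (2 * (Lm + 1)) * m) ≤ (Lm + 1) * (ε / (2 * (Lm + 1)) * m) :=
          mul_le_mul_of_nonneg_right h5 (by positivity)
      _ = ε / 2 * m := by field_simp
  have h5 := abs_sub_le (len ((FreeGroup.lift (pr j x y)) w))
    (len (B ((FreeGroup.lift (pr j x y)) w)))
    (len ((FreeGroup.lift (pr j x' (h * B y * h⁻¹))) w))
  rw [abs_sub_comm] at h3
  linarith

end Pool.Agent.CSV
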