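import Mathlib
import Pool.Agent.CSV.Blow

set_option autoImplicit false

namespace Pool.Agent.CSV

open Equiv Filter Topology

theorem len_nonneg {n : ℕ} (g : Perm (Fin n)) : 0 ≤ len g := by
  unfold len; positivity

theorem len_le_one {n : ℕ} (g : Perm (Fin n)) : len g ≤ 1 := by
  unfold len
  have h1 : (g.support.card : ℝ) ≤ n := by
    have := Finset.card_le_univ g.support
    rw [Fintype.card_fin] at this
    exact_mod_cast this
  exact div_le_one_of_le₀ h1 (Nat.cast_nonneg n)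

/-- The cell of a number in `[0,1]`. -/
noncomputable def cell (M : ℕ) (t : ℝ) (h0 : 0 ≤ t) (h1 : t ≤ 1) : Fin (M + 1) :=
  ⟨⌊t * M⌋₊, by
    have h2 : ⌊t * M⌋₊ ≤ M := by
      apply Nat.floor_le_of_le
      have : (0 : ℝ) ≤ M := Nat.cast_nonneg M
      nlinarith
    omega⟩

theorem cell_close (M : ℕ) (hM : 1 ≤ M) (s t : ℝ) (hs0 : 0 ≤ s) (hs1 : s ≤ 1) (ht0 : 0 ≤ t)
    (ht1 : t ≤ 1) (h : cell M s hs0 hs1 = cell M t ht0 ht1) : |s - t| ≤ 1 / M := by
  have hM0 : (0 : ℝ) < M := by exact_mod_cast hM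
  have h' : ⌊s * M⌋₊ = ⌊t * M⌋₊ := congrArg Fin.val h
  have a1 := Nat.floor_le (mul_nonneg hs0 hM0.le)
  have a2 := Nat.floor_le (mul_nonneg ht0 hM0.le)
  have b1 := Nat.lt_floor_add_one (s * M)
  have b2 := Nat.lt_floor_add_one (t * M)
  rw [h'] at a1 b1
  rw [abs_le]
  constructor
  · rw [neg_le, le_div_iff₀ hM0]; nlinarith
  · rw [le_div_iff₀ hM0]; nlinarith

/-- M6. Transfer in both directions, by finitely many cells. -/
theorem back (j : Fin 2) (W : Finset (FreeGroup (Fin 2))) (ε : ℝ) (hε : 0 < ε) :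
    ∃ (K : ℕ) (δ : ℝ) (N : ℕ), 0 < δ ∧ ∀ (n m : ℕ), 1 ≤ n → N ≤ m →
      ∀ (x y : Perm (Fin n)) (x' : Perm (Fin m)),
      (∀ k ≤ K, |len (x ^ k) - len (x' ^ k)| ≤ δ) →
      ∃ y' : Perm (Fin m), ∀ w ∈ W,
        |len ((FreeGroup.lift (pr j x y)) w) - len ((FreeGroup.lift (pr j x' y')) w)| ≤ ε := by
  classical
  obtain ⟨K, δ, hδ, H⟩ := blow j W (ε / 2) (by positivity)
  obtain ⟨M, hM⟩ := exists_nat_ge (max (2 / ε) (2 / δ) + 1)
  have hMε : 2 / ε + 1 ≤ M := le_trans (by gcongr; exact le_max_left _ _) hM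
  have hMδ : 2 / δ + 1 ≤ M := le_trans (by gcongr; exact le_max_right _ _) hM
  have hM1 : 1 ≤ M := by
    have : (1 : ℝ) ≤ M := le_trans (by have : 0 < 2 / ε := by positivity
                                       linarith) hMε
    exact_mod_cast this
  have hM0 : (0 : ℝ) < M := by exact_mod_cast hM1
  have hinv1 : 1 / (M : ℝ) ≤ ε / 2 := by
    rw [div_le_iff₀ hM0]
    have : 2 / ε ≤ M := by linarith
    rw [div_le_iff₀ hε] at this
    linarith
  have hinv2 : 1 / (M : ℝ) ≤ δ / 2 := by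
    rw [div_le_iff₀ hM0]
    have : 2 / δ ≤ M := by linarith
    rw [div_le_iff₀ hδ] at this
    linarith
  -- cells
  let C := (Fin (K + 1) → Fin (M + 1)) × (W → Fin (M + 1))
  let cl : (n : ℕ) → Perm (Fin n) → Perm (Fin n) → C := fun n x y =>
    (fun k => cell M (len (x ^ (k : ℕ))) (len_nonneg _) (len_le_one _),
     fun w => cell M (len ((FreeGroup.lift (pr j x y)) w.1)) (len_nonneg _) (len_le_one _))
  have key : ∀ v : C, ∃ N : ℕ, ∀ (n m : ℕ), 1 ≤ n → N ≤ m →
      ∀ (x y : Perm (Fin n)) (x' : Perm (Fin m)), cl n x y = v →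
      (∀ k ≤ K, |len (x ^ k) - len (x' ^ k)| ≤ δ / 2) →
      ∃ y' : Perm (Fin m), ∀ w ∈ W,
        |len ((FreeGroup.lift (pr j x y)) w) - len ((FreeGroup.lift (pr j x' y')) w)| ≤ ε := by
    intro v
    by_cases hv : ∃ n : ℕ, 1 ≤ n ∧ ∃ x y : Perm (Fin n), cl n x y = v
    · obtain ⟨n₀, hn₀, x₀, y₀, h₀⟩ := hv
      obtain ⟨N, hN⟩ := exists_nat_ge ((n₀ : ℝ) / δ)
      refine ⟨N, fun n m hn hm x y x' hc hx => ?_⟩
      have hcl : cl n x y = cl n₀ x₀ y₀ := by rw [hc, h₀]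
      have hc1 : ∀ k ≤ K, |len (x ^ k) - len (x₀ ^ k)| ≤ 1 / M := by
        intro k hk
        have := congrFun (congrArg Prod.fst hcl) ⟨k, by omega⟩
        exact cell_close M hM1 _ _ (len_nonneg (x ^ k)) (len_le_one (x ^ k))
          (len_nonneg (x₀ ^ k)) (len_le_one (x₀ ^ k)) this
      have hc2 : ∀ w ∈ W, |len ((FreeGroup.lift (pr j x y)) w) -
          len ((FreeGroup.lift (pr j x₀ y₀)) w)| ≤ 1 / M := by
        intro w hw
        have := congrFun (congrArg Prod.snd hcl) ⟨w, hw⟩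
        exact cell_close M hM1 _ _ (len_nonneg ((FreeGroup.lift (pr j x y)) w))
          (len_le_one ((FreeGroup.lift (pr j x y)) w))
          (len_nonneg ((FreeGroup.lift (pr j x₀ y₀)) w))
          (len_le_one ((FreeGroup.lift (pr j x₀ y₀)) w)) this
      have hnm : (n₀ : ℝ) ≤ δ * m := by
        have : (n₀ : ℝ) / δ ≤ m := le_trans hN (by exact_mod_cast hm)
        rw [div_le_iff₀ hδ] at this
        linarith
      obtain ⟨y', hy'⟩ := H n₀ m hn₀ hnm x₀ y₀ x' (by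
        intro k hk
        have e1 := hc1 k hk
        have e2 := hx k hk
        rw [abs_le] at e1 e2 ⊢
        constructor <;> linarith [e1.1, e1.2, e2.1, e2.2])
      refine ⟨y', fun w hw => ?_⟩
      have e1 := hc2 w hw
      have e2 := hy' w hw
      rw [abs_le] at e1 e2 ⊢
      constructor <;> linarith [e1.1, e1.2, e2.1, e2.2]
    · refine ⟨0, fun n m hn hm x y x' hc hx => ?_⟩
      exact absurd ⟨n, hn, x, y, hc⟩ hv
  choose N hN using key
  refine ⟨K, δ / 2, Finset.univ.sup N, by positivity, fun n m hn hm x y x' hx => ?_⟩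
  refine hN (cl n x y) n m hn (le_trans ?_ hm) x y x' rfl hx
  exact Finset.le_sup (f := N) (Finset.mem_univ _)

end Pool.Agent.CSV
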