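import Mathlib

set_option autoImplicit false

namespace Pool.Agent.CSV

/-- Formulas of continuous logic for invariant length groups with a first block of variables
`x 0, ..., x (b - 1)`, read in all the symmetric groups `S_n` with normalised Hamming length.  The
free variables are `x 0, ..., x (k - 1)`, and `p i` is the parent of the variable `x i`.  Atoms are
the lengths of arbitrary group words in the variables of the first block, and of group words in a
variable and its parent; formulas are closed under continuous connectives; `sup` and `inf` bind a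
last variable `x k` outside the first block, which had some parent `q`, one of the variables
`x 0, ..., x k`, in the formula. -/
inductive BlockTree (b : ℕ) : (k : ℕ) → (Fin k → Fin k) →
    ((n : ℕ) → (Fin k → Equiv.Perm (Fin n)) → ℝ) → Prop
  | word (k : ℕ) (hb : b ≤ k) (p : Fin k → Fin k) (w : FreeGroup (Fin b)) :
      BlockTree b k p (fun (n : ℕ) (x : Fin k → Equiv.Perm (Fin n)) =>
        (((FreeGroup.lift (fun i => x (Fin.castLE hb i))) w).support.card : ℝ) / (n : ℝ))
  | atom (k : ℕ) (p : Fin k → Fin k) (i : Fin k) (w : FreeGroup (Fin 2)) :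
      BlockTree b k p (fun (n : ℕ) (x : Fin k → Equiv.Perm (Fin n)) =>
        (((FreeGroup.lift ![x i, x (p i)]) w).support.card : ℝ) / (n : ℝ))
  | conn (k : ℕ) (p : Fin k → Fin k) (m : ℕ) (c : (Fin m → ℝ) → ℝ)
      (ψ : Fin m → ((n : ℕ) → (Fin k → Equiv.Perm (Fin n)) → ℝ)) (hc : Continuous c)
      (hψ : ∀ j, BlockTree b k p (ψ j)) :
      BlockTree b k p (fun (n : ℕ) (x : Fin k → Equiv.Perm (Fin n)) => c (fun j => ψ j n x))
  | sup (k : ℕ) (hb : b ≤ k) (p : Fin k → Fin k) (q : Fin (k + 1))
      (ψ : (n : ℕ) → (Fin (k + 1) → Equiv.Perm (Fin n)) → ℝ)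
      (hψ : BlockTree b (k + 1)
        (Fin.snoc (α := fun _ => Fin (k + 1)) (fun i => (p i).castSucc) q) ψ) :
      BlockTree b k p (fun (n : ℕ) (x : Fin k → Equiv.Perm (Fin n)) =>
        ⨆ g : Equiv.Perm (Fin n), ψ n (Fin.snoc (α := fun _ => Equiv.Perm (Fin n)) x g))
  | inf (k : ℕ) (hb : b ≤ k) (p : Fin k → Fin k) (q : Fin (k + 1))
      (ψ : (n : ℕ) → (Fin (k + 1) → Equiv.Perm (Fin n)) → ℝ)
      (hψ : BlockTree b (k + 1)
        (Fin.snoc (α := fun _ => Fin (k + 1)) (fun i => (p i).castSucc) q) ψ) :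
      BlockTree b k p (fun (n : ℕ) (x : Fin k → Equiv.Perm (Fin n)) =>
        ⨅ g : Equiv.Perm (Fin n), ψ n (Fin.snoc (α := fun _ => Equiv.Perm (Fin n)) x g))

end Pool.Agent.CSV
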