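import Mathlib
import Pool.Agent.CSV.Back
import Pool.Agent.CSV.TreeDefs

set_option autoImplicit false

namespace Pool.Agent.CSV

open Equiv Filter Topology

/-- The lengths of the words in a variable and its parent. -/
noncomputable def ptyp {k : ℕ} (p : Fin k → Fin k) {n : ℕ} (x : Fin k → Perm (Fin n)) :
    Fin k × FreeGroup (Fin 2) → ℝ :=
  fun a => len ((FreeGroup.lift ![x a.1, x (p a.1)]) a.2)

/-- The induction hypothesis. -/
def PGood {k : ℕ} (p : Fin k → Fin k) (ψ : (n : ℕ) → (Fin k → Perm (Fin n)) → ℝ) : Prop :=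
  (∃ B : ℝ, ∀ n x, |ψ n x| ≤ B) ∧
  ∀ ε : ℝ, 0 < ε → ∃ (W : Finset (Fin k × FreeGroup (Fin 2))) (δ : ℝ) (N : ℕ), 0 < δ ∧
    ∀ (n m : ℕ), N ≤ n → N ≤ m → ∀ (x : Fin k → Perm (Fin n)) (y : Fin k → Perm (Fin m)),
    (∀ a ∈ W, |ptyp p x a - ptyp p y a| ≤ δ) → |ψ n x - ψ m y| ≤ ε

theorem pgood_atom {k : ℕ} (p : Fin k → Fin k) (i : Fin k) (w : FreeGroup (Fin 2)) :
    PGood p (fun (n : ℕ) (x : Fin k → Perm (Fin n)) =>
      (((FreeGroup.lift ![x i, x (p i)]) w).support.card : ℝ) / (n : ℝ)) := by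
  constructor
  · refine ⟨1, fun n x => ?_⟩
    have h0 := len_nonneg ((FreeGroup.lift ![x i, x (p i)]) w)
    have h1 := len_le_one ((FreeGroup.lift ![x i, x (p i)]) w)
    unfold len at h0 h1
    rw [abs_le]
    constructor <;> linarith
  · intro ε hε
    refine ⟨{(i, w)}, ε, 0, hε, fun n m _ _ x y h => ?_⟩
    exact h (i, w) (Finset.mem_singleton_self _)

theorem pgood_conn {k : ℕ} (p : Fin k → Fin k) (m : ℕ) (c : (Fin m → ℝ) → ℝ)
    (ψ : Fin m → ((n : ℕ) → (Fin k → Perm (Fin n)) → ℝ)) (hc : Continuous c)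
    (hψ : ∀ j, PGood p (ψ j)) :
    PGood p (fun (n : ℕ) (x : Fin k → Perm (Fin n)) => c (fun j => ψ j n x)) := by
  classical
  choose B hB using fun j => (hψ j).1
  let K : Set (Fin m → ℝ) := Set.pi Set.univ (fun j => Set.Icc (-(B j)) (B j))
  have hK : IsCompact K := isCompact_univ_pi (fun j => isCompact_Icc)
  have hmem : ∀ n (x : Fin k → Perm (Fin n)), (fun j => ψ j n x) ∈ K := by
    intro n x j _
    exact abs_le.1 (hB j n x)
  constructor
  · obtain ⟨C, hC⟩ := hK.exists_bound_of_continuousOn hc.continuousOn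
    exact ⟨C, fun n x => hC _ (hmem n x)⟩
  · intro ε hε
    have hu := hK.uniformContinuousOn_of_continuous hc.continuousOn
    rw [Metric.uniformContinuousOn_iff] at hu
    obtain ⟨η, hη, hη'⟩ := hu ε hε
    choose W δ N hδ hW using fun j => (hψ j).2 (η / 2) (by positivity)
    obtain ⟨d, hd0, hd⟩ : ∃ d : ℝ, 0 < d ∧ ∀ j, d ≤ δ j := by
      have : ∀ᶠ d in 𝓝[>] (0 : ℝ), ∀ j, d ≤ δ j :=
        eventually_all.2 (fun j => by
          filter_upwards [Ioc_mem_nhdsGT (hδ j)] with d hd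
          exact hd.2)
      obtain ⟨d, hd1, hd2⟩ := (this.and self_mem_nhdsWithin).exists
      exact ⟨d, hd2, hd1⟩
    refine ⟨Finset.univ.biUnion W, d, Finset.univ.sup N, hd0, fun n m' hn hm x y h => ?_⟩
    have h1 : dist (fun j => ψ j n x) (fun j => ψ j m' y) < η := by
      rw [dist_pi_lt_iff hη]
      intro j
      rw [Real.dist_eq]
      have hNj : N j ≤ Finset.univ.sup N := Finset.le_sup (f := N) (Finset.mem_univ j)
      refine lt_of_le_of_lt (hW j n m' (hNj.trans hn) (hNj.trans hm) x y ?_) (by linarith)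
      intro w hw
      exact (h w (Finset.mem_biUnion.2 ⟨j, Finset.mem_univ j, hw⟩)).trans (hd j)
    have h2 := hη' _ (hmem n x) _ (hmem m' y) h1
    rw [Real.dist_eq] at h2
    exact h2.le

theorem pair_pr {n : ℕ} (x g : Perm (Fin n)) : (![g, x] : Fin 2 → Perm (Fin n)) = pr 0 x g := by
  unfold pr
  funext i
  fin_cases i <;> simp [Function.update]

/-- Both letters become the letter `0`. -/
theorem dup {n : ℕ} (g : Perm (Fin n)) (w : FreeGroup (Fin 2)) :
    (FreeGroup.lift ![g, g]) w =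
      (FreeGroup.lift (pr 0 1 g)) (FreeGroup.map (fun _ => (0 : Fin 2)) w) := by
  have : (FreeGroup.lift ![g, g] : FreeGroup (Fin 2) →* Perm (Fin n)) =
      (FreeGroup.lift (pr 0 1 g)).comp (FreeGroup.map (fun _ => (0 : Fin 2))) := by
    apply FreeGroup.ext_hom
    intro i
    fin_cases i <;> simp [pr]
  rw [this]
  rfl

/-- Transfer of one new variable whose parent is `q`. -/
theorem ptransfer {k : ℕ} (p : Fin k → Fin k) (q : Fin (k + 1))
    (W : Finset (Fin (k + 1) × FreeGroup (Fin 2))) (ε : ℝ) (hε : 0 < ε) :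
    ∃ (W' : Finset (Fin k × FreeGroup (Fin 2))) (δ : ℝ) (N : ℕ), 0 < δ ∧
      ∀ (n m : ℕ), N ≤ n → N ≤ m →
      ∀ (x : Fin k → Perm (Fin n)) (y : Fin k → Perm (Fin m)),
      (∀ a ∈ W', |ptyp p x a - ptyp p y a| ≤ δ) →
      ∀ g : Perm (Fin n), ∃ g' : Perm (Fin m), ∀ a ∈ W,
        |ptyp (Fin.snoc (α := fun _ => Fin (k + 1)) (fun i => (p i).castSucc) q)
            (Fin.snoc (α := fun _ => Perm (Fin n)) x g) a -
          ptyp (Fin.snoc (α := fun _ => Fin (k + 1)) (fun i => (p i).castSucc) q)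
            (Fin.snoc (α := fun _ => Perm (Fin m)) y g') a| ≤ ε := by
  classical
  -- old pairs
  have hold : ∀ {n : ℕ} (x : Fin k → Perm (Fin n)) (g : Perm (Fin n)) (i : Fin k)
      (w : FreeGroup (Fin 2)),
      ptyp (Fin.snoc (α := fun _ => Fin (k + 1)) (fun i => (p i).castSucc) q)
        (Fin.snoc (α := fun _ => Perm (Fin n)) x g) (i.castSucc, w) = ptyp p x (i, w) := by
    intro n x g i w
    simp only [ptyp, Fin.snoc_castSucc]
  let Wold : Finset (Fin k × FreeGroup (Fin 2)) :=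
    (Finset.univ : Finset (Fin k)) ×ˢ (W.image (fun a => a.2))
  let Wn : Finset (FreeGroup (Fin 2)) := W.image (fun a => a.2)
  have hcases : ∀ a ∈ W, (∃ i : Fin k, a = (i.castSucc, a.2) ∧ (i, a.2) ∈ Wold) ∨
      (a = (Fin.last k, a.2) ∧ a.2 ∈ Wn) := by
    rintro ⟨i, w⟩ ha
    have hw : w ∈ W.image (fun a => a.2) := Finset.mem_image.2 ⟨(i, w), ha, rfl⟩
    refine Fin.lastCases (motive := fun i => (i, w) ∈ W →
      (∃ i' : Fin k, ((i, w) : Fin (k + 1) × FreeGroup (Fin 2)) = (i'.castSucc, w) ∧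
        (i', w) ∈ Wold) ∨ (((i, w) : Fin (k + 1) × FreeGroup (Fin 2)) = (Fin.last k, w) ∧
        w ∈ Wn)) ?_ ?_ i ha
    · intro _
      exact Or.inr ⟨rfl, hw⟩
    · intro i' _
      exact Or.inl ⟨i', rfl, Finset.mem_product.2 ⟨Finset.mem_univ _, hw⟩⟩
  refine Fin.lastCases (motive := fun q => (∀ {n : ℕ} (x : Fin k → Perm (Fin n))
      (g : Perm (Fin n)) (i : Fin k) (w : FreeGroup (Fin 2)),
      ptyp (Fin.snoc (α := fun _ => Fin (k + 1)) (fun i => (p i).castSucc) q)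
        (Fin.snoc (α := fun _ => Perm (Fin n)) x g) (i.castSucc, w) = ptyp p x (i, w)) →
      ∃ (W' : Finset (Fin k × FreeGroup (Fin 2))) (δ : ℝ) (N : ℕ), 0 < δ ∧
      ∀ (n m : ℕ), N ≤ n → N ≤ m →
      ∀ (x : Fin k → Perm (Fin n)) (y : Fin k → Perm (Fin m)),
      (∀ a ∈ W', |ptyp p x a - ptyp p y a| ≤ δ) →
      ∀ g : Perm (Fin n), ∃ g' : Perm (Fin m), ∀ a ∈ W,
        |ptyp (Fin.snoc (α := fun _ => Fin (k + 1)) (fun i => (p i).castSucc) q)
            (Fin.snoc (α := fun _ => Perm (Fin n)) x g) a -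
          ptyp (Fin.snoc (α := fun _ => Fin (k + 1)) (fun i => (p i).castSucc) q)
            (Fin.snoc (α := fun _ => Perm (Fin m)) y g') a| ≤ ε) ?_ ?_ q hold
  · -- the new variable is its own parent
    intro hold
    obtain ⟨K, δ, N, hδ, H⟩ := back 0 (Wn.image (FreeGroup.map (fun _ => (0 : Fin 2)))) ε hε
    have hnew : ∀ {n : ℕ} (x : Fin k → Perm (Fin n)) (g : Perm (Fin n)) (w : FreeGroup (Fin 2)),
        ptyp (Fin.snoc (α := fun _ => Fin (k + 1)) (fun i => (p i).castSucc) (Fin.last k))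
        (Fin.snoc (α := fun _ => Perm (Fin n)) x g) (Fin.last k, w) =
        len ((FreeGroup.lift (pr 0 1 g)) (FreeGroup.map (fun _ => (0 : Fin 2)) w)) := by
      intro n x g w
      rw [← dup]
      simp only [ptyp, Fin.snoc_last]
    refine ⟨Wold, ε, max N 1, hε, fun n m hn hm x y h g => ?_⟩
    obtain ⟨g', hg'⟩ := H n m (le_trans (le_max_right _ _) hn) (le_trans (le_max_left _ _) hm)
      1 g 1 (by
        intro k _
        rw [one_pow, one_pow]
        simp [len, hδ.le])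
    refine ⟨g', fun a ha => ?_⟩
    rcases hcases a ha with ⟨i, ha1, ha2⟩ | ⟨ha1, ha2⟩
    · rw [ha1, hold, hold]
      exact h _ ha2
    · rw [ha1, hnew, hnew]
      exact hg' _ (Finset.mem_image.2 ⟨a.2, ha2, rfl⟩)
  · intro q hold
    obtain ⟨K, δ, N, hδ, H⟩ := back 0 Wn ε hε
    have hnew : ∀ {n : ℕ} (x : Fin k → Perm (Fin n)) (g : Perm (Fin n)) (w : FreeGroup (Fin 2)),
        ptyp (Fin.snoc (α := fun _ => Fin (k + 1)) (fun i => (p i).castSucc) q.castSucc)
        (Fin.snoc (α := fun _ => Perm (Fin n)) x g) (Fin.last k, w) =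
        len ((FreeGroup.lift (pr 0 (x q) g)) w) := by
      intro n x g w
      rw [← pair_pr]
      simp only [ptyp, Fin.snoc_last, Fin.snoc_castSucc]
    refine ⟨Wold ∪ (Finset.range (K + 1)).image (fun e => (q, (FreeGroup.of (0 : Fin 2)) ^ e)),
      min ε δ, max N 1, lt_min hε hδ, fun n m hn hm x y h g => ?_⟩
    obtain ⟨g', hg'⟩ := H n m (le_trans (le_max_right _ _) hn) (le_trans (le_max_left _ _) hm)
      (x q) g (y q) (by
        intro e he
        have h1 := h (q, (FreeGroup.of (0 : Fin 2)) ^ e) (Finset.mem_union_right _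
          (Finset.mem_image.2 ⟨e, Finset.mem_range.2 (by omega), rfl⟩))
        simp only [ptyp, map_pow, FreeGroup.lift_apply_of, Matrix.cons_val_zero] at h1
        exact h1.trans (min_le_right _ _))
    refine ⟨g', fun a ha => ?_⟩
    rcases hcases a ha with ⟨i, ha1, ha2⟩ | ⟨ha1, ha2⟩
    · rw [ha1, hold, hold]
      exact (h _ (Finset.mem_union_left _ ha2)).trans (min_le_left _ _)
    · rw [ha1, hnew, hnew]
      exact hg' _ ha2

theorem pgood_quant {k : ℕ} (p : Fin k → Fin k) (q : Fin (k + 1))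
    (ψ : (n : ℕ) → (Fin (k + 1) → Perm (Fin n)) → ℝ)
    (hψ : PGood (Fin.snoc (α := fun _ => Fin (k + 1)) (fun i => (p i).castSucc) q) ψ)
    (ε : ℝ) (hε : 0 < ε) :
    ∃ (W : Finset (Fin k × FreeGroup (Fin 2))) (δ : ℝ) (N : ℕ), 0 < δ ∧
    ∀ (n m : ℕ), N ≤ n → N ≤ m → ∀ (x : Fin k → Perm (Fin n)) (y : Fin k → Perm (Fin m)),
    (∀ a ∈ W, |ptyp p x a - ptyp p y a| ≤ δ) →
    (∀ g : Perm (Fin n), ∃ g' : Perm (Fin m),
      |ψ n (Fin.snoc (α := fun _ => Perm (Fin n)) x g) -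
        ψ m (Fin.snoc (α := fun _ => Perm (Fin m)) y g')| ≤ ε) ∧
    (∀ g' : Perm (Fin m), ∃ g : Perm (Fin n),
      |ψ n (Fin.snoc (α := fun _ => Perm (Fin n)) x g) -
        ψ m (Fin.snoc (α := fun _ => Perm (Fin m)) y g')| ≤ ε) := by
  obtain ⟨W, δ, N, hδ, hW⟩ := hψ.2 ε hε
  obtain ⟨W', δ', N', hδ', hT⟩ := ptransfer p q W δ hδ
  refine ⟨W', δ', max N N', hδ', fun n m hn hm x y h => ⟨fun g => ?_, fun g' => ?_⟩⟩
  · obtain ⟨g', hg'⟩ := hT n m (le_trans (le_max_right _ _) hn) (le_trans (le_max_right _ _) hm)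
      x y h g
    exact ⟨g', hW n m (le_trans (le_max_left _ _) hn) (le_trans (le_max_left _ _) hm) _ _ hg'⟩
  · obtain ⟨g, hg⟩ := hT m n (le_trans (le_max_right _ _) hm) (le_trans (le_max_right _ _) hn)
      y x (fun a ha => by rw [abs_sub_comm]; exact h a ha) g'
    refine ⟨g, hW n m (le_trans (le_max_left _ _) hn) (le_trans (le_max_left _ _) hm) _ _ ?_⟩
    intro a ha
    rw [abs_sub_comm]
    exact hg a ha

theorem pgood_sup {k : ℕ} (p : Fin k → Fin k) (q : Fin (k + 1))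
    (ψ : (n : ℕ) → (Fin (k + 1) → Perm (Fin n)) → ℝ)
    (hψ : PGood (Fin.snoc (α := fun _ => Fin (k + 1)) (fun i => (p i).castSucc) q) ψ) :
    PGood p (fun (n : ℕ) (x : Fin k → Perm (Fin n)) =>
      ⨆ g : Perm (Fin n), ψ n (Fin.snoc (α := fun _ => Perm (Fin n)) x g)) := by
  constructor
  · obtain ⟨B, hB⟩ := hψ.1
    refine ⟨B, fun n x => ?_⟩
    rw [abs_le]
    constructor
    · exact le_trans (abs_le.1 (hB n _)).1
        (le_ciSup (f := fun g : Perm (Fin n) => ψ n (Fin.snoc (α := fun _ => Perm (Fin n)) x g))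
          (Set.finite_range _).bddAbove 1)
    · exact ciSup_le (fun g => (abs_le.1 (hB n _)).2)
  · intro ε hε
    obtain ⟨W, δ, N, hδ, H⟩ := pgood_quant p q ψ hψ ε hε
    refine ⟨W, δ, N, hδ, fun n m hn hm x y h => ?_⟩
    obtain ⟨h1, h2⟩ := H n m hn hm x y h
    exact sup_close _ _ ε h1 h2

theorem pgood_inf {k : ℕ} (p : Fin k → Fin k) (q : Fin (k + 1))
    (ψ : (n : ℕ) → (Fin (k + 1) → Perm (Fin n)) → ℝ)
    (hψ : PGood (Fin.snoc (α := fun _ => Fin (k + 1)) (fun i => (p i).castSucc) q) ψ) :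
    PGood p (fun (n : ℕ) (x : Fin k → Perm (Fin n)) =>
      ⨅ g : Perm (Fin n), ψ n (Fin.snoc (α := fun _ => Perm (Fin n)) x g)) := by
  constructor
  · obtain ⟨B, hB⟩ := hψ.1
    refine ⟨B, fun n x => ?_⟩
    rw [abs_le]
    constructor
    · exact le_ciInf (fun g => (abs_le.1 (hB n _)).1)
    · exact le_trans
        (ciInf_le (f := fun g : Perm (Fin n) => ψ n (Fin.snoc (α := fun _ => Perm (Fin n)) x g))
          (Set.finite_range _).bddBelow 1) (abs_le.1 (hB n _)).2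
  · intro ε hε
    obtain ⟨W, δ, N, hδ, H⟩ := pgood_quant p q ψ hψ ε hε
    refine ⟨W, δ, N, hδ, fun n m hn hm x y h => ?_⟩
    obtain ⟨h1, h2⟩ := H n m hn hm x y h
    exact inf_close _ _ ε h1 h2

theorem pgood_all {k : ℕ} {p : Fin k → Fin k} {ψ : (n : ℕ) → (Fin k → Perm (Fin n)) → ℝ}
    (h : TreeLike k p ψ) : PGood p ψ := by
  induction h with
  | atom k p i w => exact pgood_atom p i w
  | conn k p m c ψ hc _ ih => exact pgood_conn p m c ψ hc ih
  | sup k p q ψ _ ih => exact pgood_sup p q ψ ih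
  | inf k p q ψ _ ih => exact pgood_inf p q ψ ih

end Pool.Agent.CSV
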