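import Mathlib
import Pool.Agent.CSV.Tree
import Pool.Agent.CSV.BlockDefs

set_option autoImplicit false

namespace Pool.Agent.CSV

open Equiv Filter Topology

/-- The word lengths in the first block. -/
noncomputable def wtyp {b k : ℕ} (hb : b ≤ k) {n : ℕ} (x : Fin k → Perm (Fin n)) :
    FreeGroup (Fin b) → ℝ :=
  fun w => len ((FreeGroup.lift (fun i => x (Fin.castLE hb i))) w)

/-- The induction hypothesis. -/
def BGood {b k : ℕ} (hb : b ≤ k) (p : Fin k → Fin k)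
    (ψ : (n : ℕ) → (Fin k → Perm (Fin n)) → ℝ) : Prop :=
  (∃ B : ℝ, ∀ n x, |ψ n x| ≤ B) ∧
  ∀ ε : ℝ, 0 < ε → ∃ (W : Finset (Fin k × FreeGroup (Fin 2))) (V : Finset (FreeGroup (Fin b)))
    (δ : ℝ) (N : ℕ), 0 < δ ∧
    ∀ (n m : ℕ), N ≤ n → N ≤ m → ∀ (x : Fin k → Perm (Fin n)) (y : Fin k → Perm (Fin m)),
    (∀ a ∈ W, |ptyp p x a - ptyp p y a| ≤ δ) → (∀ w ∈ V, |wtyp hb x w - wtyp hb y w| ≤ δ) →
    |ψ n x - ψ m y| ≤ ε

theorem bgood_of_pgood {b k : ℕ} (hb : b ≤ k) (p : Fin k → Fin k)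
    (ψ : (n : ℕ) → (Fin k → Perm (Fin n)) → ℝ) (h : PGood p ψ) : BGood hb p ψ := by
  refine ⟨h.1, fun ε hε => ?_⟩
  obtain ⟨W, δ, N, hδ, H⟩ := h.2 ε hε
  exact ⟨W, ∅, δ, N, hδ, fun n m hn hm x y h1 _ => H n m hn hm x y h1⟩

theorem bgood_word {b k : ℕ} (hb : b ≤ k) (p : Fin k → Fin k) (w : FreeGroup (Fin b)) :
    BGood hb p (fun (n : ℕ) (x : Fin k → Perm (Fin n)) =>
      (((FreeGroup.lift (fun i => x (Fin.castLE hb i))) w).support.card : ℝ) / (n : ℝ)) := by
  constructor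
  · refine ⟨1, fun n x => ?_⟩
    have h0 := len_nonneg ((FreeGroup.lift (fun i => x (Fin.castLE hb i))) w)
    have h1 := len_le_one ((FreeGroup.lift (fun i => x (Fin.castLE hb i))) w)
    unfold len at h0 h1
    rw [abs_le]
    constructor <;> linarith
  · intro ε hε
    refine ⟨∅, {w}, ε, 0, hε, fun n m _ _ x y _ h => ?_⟩
    exact h w (Finset.mem_singleton_self _)

theorem bgood_conn {b k : ℕ} (hb : b ≤ k) (p : Fin k → Fin k) (m : ℕ) (c : (Fin m → ℝ) → ℝ)
    (ψ : Fin m → ((n : ℕ) → (Fin k → Perm (Fin n)) → ℝ)) (hc : Continuous c)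
    (hψ : ∀ j, BGood hb p (ψ j)) :
    BGood hb p (fun (n : ℕ) (x : Fin k → Perm (Fin n)) => c (fun j => ψ j n x)) := by
  classical
  choose B hB using fun j => (hψ j).1
  let K : Set (Fin m → ℝ) := Set.pi Set.univ (fun j => Set.Icc (-(B j)) (B j))
  have hK : IsCompact K := isCompact_univ_pi (fun j => isCompact_Icc)
  have hmem : ∀ n (x : Fin k → Perm (Fin n)), (fun j => ψ j n x) ∈ K := by
    intro n x j _
    exact abs_le.1 (hB j n x)
  constructor
  · obtain ⟨C, hC⟩ := hK.exists_bound_of_continuousOn hc.continuousOn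
    exact ⟨C, fun n x => hC _ (hmem n x)⟩
  · intro ε hε
    have hu := hK.uniformContinuousOn_of_continuous hc.continuousOn
    rw [Metric.uniformContinuousOn_iff] at hu
    obtain ⟨η, hη, hη'⟩ := hu ε hε
    choose W V δ N hδ hW using fun j => (hψ j).2 (η / 2) (by positivity)
    obtain ⟨d, hd0, hd⟩ : ∃ d : ℝ, 0 < d ∧ ∀ j, d ≤ δ j := by
      have : ∀ᶠ d in 𝓝[>] (0 : ℝ), ∀ j, d ≤ δ j :=
        eventually_all.2 (fun j => by
          filter_upwards [Ioc_mem_nhdsGT (hδ j)] with d hd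
          exact hd.2)
      obtain ⟨d, hd1, hd2⟩ := (this.and self_mem_nhdsWithin).exists
      exact ⟨d, hd2, hd1⟩
    refine ⟨Finset.univ.biUnion W, Finset.univ.biUnion V, d, Finset.univ.sup N, hd0,
      fun n m' hn hm x y h h' => ?_⟩
    have h1 : dist (fun j => ψ j n x) (fun j => ψ j m' y) < η := by
      rw [dist_pi_lt_iff hη]
      intro j
      rw [Real.dist_eq]
      have hNj : N j ≤ Finset.univ.sup N := Finset.le_sup (f := N) (Finset.mem_univ j)
      refine lt_of_le_of_lt (hW j n m' (hNj.trans hn) (hNj.trans hm) x y ?_ ?_) (by linarith)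
      · intro w hw
        exact (h w (Finset.mem_biUnion.2 ⟨j, Finset.mem_univ j, hw⟩)).trans (hd j)
      · intro w hw
        exact (h' w (Finset.mem_biUnion.2 ⟨j, Finset.mem_univ j, hw⟩)).trans (hd j)
    have h2 := hη' _ (hmem n x) _ (hmem m' y) h1
    rw [Real.dist_eq] at h2
    exact h2.le

theorem wtyp_snoc {b k : ℕ} (hb : b ≤ k) {n : ℕ} (x : Fin k → Perm (Fin n)) (g : Perm (Fin n)) :
    wtyp (hb.trans (Nat.le_succ k)) (Fin.snoc (α := fun _ => Perm (Fin n)) x g) = wtyp hb x := by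
  unfold wtyp
  have : (fun i : Fin b => Fin.snoc (α := fun _ => Perm (Fin n)) x g
      (Fin.castLE (hb.trans (Nat.le_succ k)) i)) = fun i => x (Fin.castLE hb i) := by
    funext i
    exact Fin.snoc_castSucc (α := fun _ => Perm (Fin n)) g x (Fin.castLE hb i)
  funext w
  rw [this]

theorem bgood_quant {b k : ℕ} (hb : b ≤ k) (p : Fin k → Fin k) (q : Fin (k + 1))
    (ψ : (n : ℕ) → (Fin (k + 1) → Perm (Fin n)) → ℝ)
    (hψ : BGood (hb.trans (Nat.le_succ k))
      (Fin.snoc (α := fun _ => Fin (k + 1)) (fun i => (p i).castSucc) q) ψ)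
    (ε : ℝ) (hε : 0 < ε) :
    ∃ (W : Finset (Fin k × FreeGroup (Fin 2))) (V : Finset (FreeGroup (Fin b))) (δ : ℝ) (N : ℕ),
    0 < δ ∧
    ∀ (n m : ℕ), N ≤ n → N ≤ m → ∀ (x : Fin k → Perm (Fin n)) (y : Fin k → Perm (Fin m)),
    (∀ a ∈ W, |ptyp p x a - ptyp p y a| ≤ δ) → (∀ w ∈ V, |wtyp hb x w - wtyp hb y w| ≤ δ) →
    (∀ g : Perm (Fin n), ∃ g' : Perm (Fin m),
      |ψ n (Fin.snoc (α := fun _ => Perm (Fin n)) x g) -
        ψ m (Fin.snoc (α := fun _ => Perm (Fin m)) y g')| ≤ ε) ∧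
    (∀ g' : Perm (Fin m), ∃ g : Perm (Fin n),
      |ψ n (Fin.snoc (α := fun _ => Perm (Fin n)) x g) -
        ψ m (Fin.snoc (α := fun _ => Perm (Fin m)) y g')| ≤ ε) := by
  obtain ⟨W, V, δ, N, hδ, hW⟩ := hψ.2 ε hε
  obtain ⟨W', δ', N', hδ', hT⟩ := ptransfer p q W δ hδ
  refine ⟨W', V, min δ δ', max N N', lt_min hδ hδ',
    fun n m hn hm x y h hv => ⟨fun g => ?_, fun g' => ?_⟩⟩
  · obtain ⟨g', hg'⟩ := hT n m (le_trans (le_max_right _ _) hn) (le_trans (le_max_right _ _) hm)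
      x y (fun a ha => (h a ha).trans (min_le_right _ _)) g
    refine ⟨g', hW n m (le_trans (le_max_left _ _) hn) (le_trans (le_max_left _ _) hm) _ _ hg' ?_⟩
    intro w hw
    rw [wtyp_snoc hb, wtyp_snoc hb]
    exact (hv w hw).trans (min_le_left _ _)
  · obtain ⟨g, hg⟩ := hT m n (le_trans (le_max_right _ _) hm) (le_trans (le_max_right _ _) hn)
      y x (fun a ha => by rw [abs_sub_comm]; exact (h a ha).trans (min_le_right _ _)) g'
    refine ⟨g, hW n m (le_trans (le_max_left _ _) hn) (le_trans (le_max_left _ _) hm) _ _ ?_ ?_⟩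
    · intro a ha
      rw [abs_sub_comm]
      exact hg a ha
    · intro w hw
      rw [wtyp_snoc hb, wtyp_snoc hb]
      exact (hv w hw).trans (min_le_left _ _)

theorem bgood_sup {b k : ℕ} (hb : b ≤ k) (p : Fin k → Fin k) (q : Fin (k + 1))
    (ψ : (n : ℕ) → (Fin (k + 1) → Perm (Fin n)) → ℝ)
    (hψ : BGood (hb.trans (Nat.le_succ k))
      (Fin.snoc (α := fun _ => Fin (k + 1)) (fun i => (p i).castSucc) q) ψ) :
    BGood hb p (fun (n : ℕ) (x : Fin k → Perm (Fin n)) =>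
      ⨆ g : Perm (Fin n), ψ n (Fin.snoc (α := fun _ => Perm (Fin n)) x g)) := by
  constructor
  · obtain ⟨B, hB⟩ := hψ.1
    refine ⟨B, fun n x => ?_⟩
    rw [abs_le]
    constructor
    · exact le_trans (abs_le.1 (hB n _)).1
        (le_ciSup (f := fun g : Perm (Fin n) => ψ n (Fin.snoc (α := fun _ => Perm (Fin n)) x g))
          (Set.finite_range _).bddAbove 1)
    · exact ciSup_le (fun g => (abs_le.1 (hB n _)).2)
  · intro ε hε
    obtain ⟨W, V, δ, N, hδ, H⟩ := bgood_quant hb p q ψ hψ ε hε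
    refine ⟨W, V, δ, N, hδ, fun n m hn hm x y h h' => ?_⟩
    obtain ⟨h1, h2⟩ := H n m hn hm x y h h'
    exact sup_close _ _ ε h1 h2

theorem bgood_inf {b k : ℕ} (hb : b ≤ k) (p : Fin k → Fin k) (q : Fin (k + 1))
    (ψ : (n : ℕ) → (Fin (k + 1) → Perm (Fin n)) → ℝ)
    (hψ : BGood (hb.trans (Nat.le_succ k))
      (Fin.snoc (α := fun _ => Fin (k + 1)) (fun i => (p i).castSucc) q) ψ) :
    BGood hb p (fun (n : ℕ) (x : Fin k → Perm (Fin n)) =>
      ⨅ g : Perm (Fin n), ψ n (Fin.snoc (α := fun _ => Perm (Fin n)) x g)) := by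
  constructor
  · obtain ⟨B, hB⟩ := hψ.1
    refine ⟨B, fun n x => ?_⟩
    rw [abs_le]
    constructor
    · exact le_ciInf (fun g => (abs_le.1 (hB n _)).1)
    · exact le_trans
        (ciInf_le (f := fun g : Perm (Fin n) => ψ n (Fin.snoc (α := fun _ => Perm (Fin n)) x g))
          (Set.finite_range _).bddBelow 1) (abs_le.1 (hB n _)).2
  · intro ε hε
    obtain ⟨W, V, δ, N, hδ, H⟩ := bgood_quant hb p q ψ hψ ε hε
    refine ⟨W, V, δ, N, hδ, fun n m hn hm x y h h' => ?_⟩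
    obtain ⟨h1, h2⟩ := H n m hn hm x y h h'
    exact inf_close _ _ ε h1 h2

theorem bgood_all {b k : ℕ} {p : Fin k → Fin k} {ψ : (n : ℕ) → (Fin k → Perm (Fin n)) → ℝ}
    (h : BlockTree b k p ψ) : ∀ hb : b ≤ k, BGood hb p ψ := by
  induction h with
  | word k hb' p w => intro hb; exact bgood_word hb p w
  | atom k p i w => intro hb; exact bgood_of_pgood hb p _ (pgood_atom p i w)
  | conn k p m c ψ hc _ ih => intro hb; exact bgood_conn hb p m c ψ hc (fun j => ih j hb)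
  | sup k hb' p q ψ _ ih => intro hb; exact bgood_sup hb p q ψ (ih _)
  | inf k hb' p q ψ _ ih => intro hb; exact bgood_inf hb p q ψ (ih _)

/-- A bounded sequence which almost decreases in the long run converges. -/
theorem conv_of_down (v : ℕ → ℝ) (B : ℝ) (hB : ∀ n, |v n| ≤ B)
    (h : ∀ ε : ℝ, 0 < ε → ∃ N : ℕ, ∀ n, N ≤ n → ∃ M : ℕ, ∀ m, M ≤ m → v m ≤ v n + ε) :
    ∃ L : ℝ, Tendsto v atTop (𝓝 L) := by
  obtain ⟨L, -, hL⟩ := (isCompact_Icc (a := -B) (b := B)).exists_mapClusterPt (f := atTop) (u := v)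
    (by
      rw [le_principal_iff]
      exact Filter.mem_map.2 (Filter.Eventually.of_forall (fun n => abs_le.1 (hB n))))
  have hfreq : ∀ ε : ℝ, 0 < ε → ∃ᶠ n in atTop, |v n - L| < ε := by
    intro ε hε
    have h1 := (mapClusterPt_iff_frequently.1 hL) (Metric.ball L ε) (Metric.ball_mem_nhds L hε)
    refine h1.mono (fun n hn => ?_)
    rwa [Metric.mem_ball, Real.dist_eq] at hn
  refine ⟨L, ?_⟩
  rw [Metric.tendsto_atTop]
  intro ε hε
  obtain ⟨N, hN⟩ := h (ε / 2) (by positivity)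
  -- upper bound
  obtain ⟨n₀, hn₀, hv₀⟩ := (frequently_atTop.1 (hfreq (ε / 4) (by positivity))) N
  obtain ⟨M, hM⟩ := hN n₀ hn₀
  refine ⟨max M N, fun m hm => ?_⟩
  rw [Real.dist_eq, abs_lt]
  constructor
  · by_contra hcon
    rw [not_lt] at hcon
    obtain ⟨M', hM'⟩ := hN m (le_trans (le_max_right _ _) hm)
    obtain ⟨n₁, hn₁, hv₁⟩ := (frequently_atTop.1 (hfreq (ε / 4) (by positivity))) M'
    have h2 := hM' n₁ hn₁
    have h3 := (abs_lt.1 hv₁).1
    linarith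
  · have h2 := hM m (le_trans (le_max_left _ _) hm)
    have h3 := (abs_lt.1 hv₀).2
    linarith

theorem block_up {b : ℕ} (p : Fin b → Fin b) (ψ : (n : ℕ) → (Fin b → Perm (Fin n)) → ℝ)
    (hψ : BGood (le_refl b) p ψ) (ε : ℝ) (hε : 0 < ε) :
    ∃ N : ℕ, ∀ n, N ≤ n → ∃ M : ℕ, ∀ m, M ≤ m → ∀ x : Fin b → Perm (Fin n),
      ∃ y : Fin b → Perm (Fin m), |ψ n x - ψ m y| ≤ ε := by
  obtain ⟨W, V, δ, N, hδ, H⟩ := hψ.2 ε hε
  refine ⟨max N 1, fun n hn => ?_⟩
  obtain ⟨M, hM⟩ := exists_nat_ge ((n : ℝ) / δ)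
  refine ⟨max M n, fun m hm x => ?_⟩
  have hnm : n ≤ m := le_trans (le_max_right _ _) hm
  have hn1 : 1 ≤ n := le_trans (le_max_right _ _) hn
  have hn0 : (0 : ℝ) < n := by exact_mod_cast hn1
  have hm0 : (0 : ℝ) < m := lt_of_lt_of_le hn0 (by exact_mod_cast hnm)
  obtain ⟨Bl, hBl⟩ := exists_blow n m hn1 hnm
  have hle : (n : ℝ) / m ≤ δ := by
    have h1 : (n : ℝ) / δ ≤ m := hM.trans (by exact_mod_cast le_trans (le_max_left _ _) hm)
    rw [div_le_iff₀ hδ] at h1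
    rw [div_le_iff₀ hm0]
    linarith
  refine ⟨fun i => Bl (x i), H n m (le_trans (le_max_left _ _) hn)
    (le_trans (le_trans (le_max_left _ _) hn) hnm) x _ ?_ ?_⟩
  · rintro ⟨i, w⟩ _
    have e : (FreeGroup.lift ![Bl (x i), Bl (x (p i))]) w =
        Bl ((FreeGroup.lift ![x i, x (p i)]) w) := by
      have : (FreeGroup.lift ![Bl (x i), Bl (x (p i))] : FreeGroup (Fin 2) →* Perm (Fin m)) =
          Bl.comp (FreeGroup.lift ![x i, x (p i)]) := by
        apply FreeGroup.ext_hom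
        intro j
        fin_cases j <;> simp
      rw [this]
      rfl
    simp only [ptyp]
    rw [e, abs_sub_comm]
    exact (hBl _).trans hle
  · intro w _
    have e : (FreeGroup.lift (fun i => Bl (x (Fin.castLE (le_refl b) i)))) w =
        Bl ((FreeGroup.lift (fun i => x (Fin.castLE (le_refl b) i))) w) := by
      have : (FreeGroup.lift (fun i => Bl (x (Fin.castLE (le_refl b) i))) :
          FreeGroup (Fin b) →* Perm (Fin m)) =
          Bl.comp (FreeGroup.lift (fun i => x (Fin.castLE (le_refl b) i))) := by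
        apply FreeGroup.ext_hom
        intro j
        simp
      rw [this]
      rfl
    simp only [wtyp]
    rw [e, abs_sub_comm]
    exact (hBl _).trans hle

theorem block_inf {b : ℕ} (p : Fin b → Fin b) (ψ : (n : ℕ) → (Fin b → Perm (Fin n)) → ℝ)
    (hψ : BlockTree b b p ψ) :
    ∃ L : ℝ, Tendsto (fun n : ℕ => ⨅ x : Fin b → Perm (Fin n), ψ n x) atTop (𝓝 L) := by
  have hg := bgood_all hψ (le_refl b)
  obtain ⟨B, hB⟩ := hg.1
  refine conv_of_down _ B (fun n => ?_) (fun ε hε => ?_)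
  · rw [abs_le]
    constructor
    · exact le_ciInf (fun x => (abs_le.1 (hB n x)).1)
    · exact (ciInf_le (f := fun x : Fin b → Perm (Fin n) => ψ n x)
        (Set.finite_range _).bddBelow (fun _ => 1)).trans (abs_le.1 (hB n _)).2
  · obtain ⟨N, hN⟩ := block_up p ψ hg ε hε
    refine ⟨N, fun n hn => ?_⟩
    obtain ⟨M, hM⟩ := hN n hn
    refine ⟨M, fun m hm => ?_⟩
    have h1 : (⨅ y : Fin b → Perm (Fin m), ψ m y) - ε ≤ ⨅ x : Fin b → Perm (Fin n), ψ n x := by
      apply le_ciInf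
      intro x
      obtain ⟨y, hy⟩ := hM m hm x
      have h2 := ciInf_le (f := fun y : Fin b → Perm (Fin m) => ψ m y)
        (Set.finite_range _).bddBelow y
      have h3 := (abs_le.1 hy).1
      linarith
    linarith

theorem block_sup {b : ℕ} (p : Fin b → Fin b) (ψ : (n : ℕ) → (Fin b → Perm (Fin n)) → ℝ)
    (hψ : BlockTree b b p ψ) :
    ∃ L : ℝ, Tendsto (fun n : ℕ => ⨆ x : Fin b → Perm (Fin n), ψ n x) atTop (𝓝 L) := by
  have hg := bgood_all hψ (le_refl b)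
  obtain ⟨B, hB⟩ := hg.1
  obtain ⟨L, hL⟩ := conv_of_down (fun n : ℕ => -⨆ x : Fin b → Perm (Fin n), ψ n x) B
    (fun n => by
      rw [abs_neg, abs_le]
      constructor
      · exact (abs_le.1 (hB n _)).1.trans (le_ciSup (f := fun x : Fin b → Perm (Fin n) => ψ n x)
          (Set.finite_range _).bddAbove (fun _ => 1))
      · exact ciSup_le (fun x => (abs_le.1 (hB n x)).2))
    (fun ε hε => by
      obtain ⟨N, hN⟩ := block_up p ψ hg ε hε
      refine ⟨N, fun n hn => ?_⟩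
      obtain ⟨M, hM⟩ := hN n hn
      refine ⟨M, fun m hm => ?_⟩
      have h1 : (⨆ x : Fin b → Perm (Fin n), ψ n x) ≤ (⨆ y : Fin b → Perm (Fin m), ψ m y) + ε := by
        apply ciSup_le
        intro x
        obtain ⟨y, hy⟩ := hM m hm x
        have h2 := le_ciSup (f := fun y : Fin b → Perm (Fin m) => ψ m y)
          (Set.finite_range _).bddAbove y
        have h3 := (abs_le.1 hy).2
        linarith
      show -(⨆ y : Fin b → Perm (Fin m), ψ m y) ≤ -(⨆ x : Fin b → Perm (Fin n), ψ n x) + ε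
      linarith)
  refine ⟨-L, ?_⟩
  have := hL.neg
  simpa using this

end Pool.Agent.CSV
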