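import Mathlib

set_option autoImplicit false

namespace Pool.Agent.CSV

/-- The two-variable fragment of continuous logic for invariant length groups, read in all the
symmetric groups `S_n` with normalised Hamming length.  A formula in the variables `x 0`, `x 1`
is given by its values `ψ n x`, `x : Fin 2 → S_n`.  Atoms are the lengths of group words in the
two variables; formulas are closed under continuous connectives and under `sup` and `inf` over
either variable (so a variable may be quantified again and again). -/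
inductive TwoVar : ((n : ℕ) → (Fin 2 → Equiv.Perm (Fin n)) → ℝ) → Prop
  | atom (w : FreeGroup (Fin 2)) :
      TwoVar (fun (n : ℕ) (x : Fin 2 → Equiv.Perm (Fin n)) =>
        (((FreeGroup.lift x) w).support.card : ℝ) / (n : ℝ))
  | conn (m : ℕ) (c : (Fin m → ℝ) → ℝ)
      (ψ : Fin m → ((n : ℕ) → (Fin 2 → Equiv.Perm (Fin n)) → ℝ)) (hc : Continuous c)
      (hψ : ∀ j, TwoVar (ψ j)) :
      TwoVar (fun (n : ℕ) (x : Fin 2 → Equiv.Perm (Fin n)) => c (fun j => ψ j n x))
  | sup (j : Fin 2) (ψ : (n : ℕ) → (Fin 2 → Equiv.Perm (Fin n)) → ℝ) (hψ : TwoVar ψ) :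
      TwoVar (fun (n : ℕ) (x : Fin 2 → Equiv.Perm (Fin n)) =>
        ⨆ g : Equiv.Perm (Fin n), ψ n (Function.update x j g))
  | inf (j : Fin 2) (ψ : (n : ℕ) → (Fin 2 → Equiv.Perm (Fin n)) → ℝ) (hψ : TwoVar ψ) :
      TwoVar (fun (n : ℕ) (x : Fin 2 → Equiv.Perm (Fin n)) =>
        ⨅ g : Equiv.Perm (Fin n), ψ n (Function.update x j g))

end Pool.Agent.CSV
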