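import Mathlib
import Pool.Agent.CSV.Back
import Pool.Agent.CSV.FinDefs

set_option autoImplicit false

namespace Pool.Agent.CSV

open Equiv Filter Topology

/-- The induction hypothesis: the value depends, up to `ε`, only on finitely many word lengths up
to `δ`, for large `n`, `m`. -/
def Good (ψ : (n : ℕ) → (Fin 2 → Perm (Fin n)) → ℝ) : Prop :=
  (∃ B : ℝ, ∀ n x, |ψ n x| ≤ B) ∧
  ∀ ε : ℝ, 0 < ε → ∃ (W : Finset (FreeGroup (Fin 2))) (δ : ℝ) (N : ℕ), 0 < δ ∧
    ∀ (n m : ℕ), N ≤ n → N ≤ m → ∀ (x : Fin 2 → Perm (Fin n)) (y : Fin 2 → Perm (Fin m)),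
    (∀ w ∈ W, |len ((FreeGroup.lift x) w) - len ((FreeGroup.lift y) w)| ≤ δ) →
    |ψ n x - ψ m y| ≤ ε

theorem good_atom (w : FreeGroup (Fin 2)) :
    Good (fun (n : ℕ) (x : Fin 2 → Perm (Fin n)) =>
      (((FreeGroup.lift x) w).support.card : ℝ) / (n : ℝ)) := by
  constructor
  · refine ⟨1, fun n x => ?_⟩
    have h0 := len_nonneg ((FreeGroup.lift x) w)
    have h1 := len_le_one ((FreeGroup.lift x) w)
    unfold len at h0 h1
    rw [abs_le]
    constructor <;> linarith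
  · intro ε hε
    refine ⟨{w}, ε, 0, hε, fun n m _ _ x y h => ?_⟩
    exact h w (Finset.mem_singleton_self w)

theorem good_conn (m : ℕ) (c : (Fin m → ℝ) → ℝ)
    (ψ : Fin m → ((n : ℕ) → (Fin 2 → Perm (Fin n)) → ℝ)) (hc : Continuous c)
    (hψ : ∀ j, Good (ψ j)) :
    Good (fun (n : ℕ) (x : Fin 2 → Perm (Fin n)) => c (fun j => ψ j n x)) := by
  classical
  choose B hB using fun j => (hψ j).1
  let K : Set (Fin m → ℝ) := Set.pi Set.univ (fun j => Set.Icc (-(B j)) (B j))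
  have hK : IsCompact K := isCompact_univ_pi (fun j => isCompact_Icc)
  have hmem : ∀ n (x : Fin 2 → Perm (Fin n)), (fun j => ψ j n x) ∈ K := by
    intro n x j _
    exact abs_le.1 (hB j n x)
  constructor
  · obtain ⟨C, hC⟩ := hK.exists_bound_of_continuousOn hc.continuousOn
    exact ⟨C, fun n x => hC _ (hmem n x)⟩
  · intro ε hε
    have hu := hK.uniformContinuousOn_of_continuous hc.continuousOn
    rw [Metric.uniformContinuousOn_iff] at hu
    obtain ⟨η, hη, hη'⟩ := hu ε hε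
    choose W δ N hδ hW using fun j => (hψ j).2 (η / 2) (by positivity)
    obtain ⟨d, hd0, hd⟩ : ∃ d : ℝ, 0 < d ∧ ∀ j, d ≤ δ j := by
      have : ∀ᶠ d in 𝓝[>] (0 : ℝ), ∀ j, d ≤ δ j :=
        eventually_all.2 (fun j => by
          filter_upwards [Ioc_mem_nhdsGT (hδ j)] with d hd
          exact hd.2)
      obtain ⟨d, hd1, hd2⟩ := (this.and self_mem_nhdsWithin).exists
      exact ⟨d, hd2, hd1⟩
    refine ⟨Finset.univ.biUnion W, d, Finset.univ.sup N, hd0, fun n m' hn hm x y h => ?_⟩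
    have h1 : dist (fun j => ψ j n x) (fun j => ψ j m' y) < η := by
      rw [dist_pi_lt_iff hη]
      intro j
      rw [Real.dist_eq]
      have hNj : N j ≤ Finset.univ.sup N := Finset.le_sup (f := N) (Finset.mem_univ j)
      refine lt_of_le_of_lt (hW j n m' (hNj.trans hn) (hNj.trans hm) x y ?_) (by linarith)
      intro w hw
      exact (h w (Finset.mem_biUnion.2 ⟨j, Finset.mem_univ j, hw⟩)).trans (hd j)
    have h2 := hη' _ (hmem n x) _ (hmem m' y) h1
    rw [Real.dist_eq] at h2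
    exact h2.le

theorem update_pr {n : ℕ} (j : Fin 2) (x : Fin 2 → Perm (Fin n)) (g : Perm (Fin n)) :
    Function.update x j g = pr j (x (1 - j)) g := by
  unfold pr
  funext i
  fin_cases j <;> fin_cases i <;> simp [Function.update]

/-- The two-sided transfer for a pair, in the form used in the induction. -/
theorem transfer (j : Fin 2) (W : Finset (FreeGroup (Fin 2))) (ε : ℝ) (hε : 0 < ε) :
    ∃ (W' : Finset (FreeGroup (Fin 2))) (δ : ℝ) (N : ℕ), 0 < δ ∧ ∀ (n m : ℕ), N ≤ n → N ≤ m →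
      ∀ (x : Fin 2 → Perm (Fin n)) (x' : Fin 2 → Perm (Fin m)),
      (∀ w ∈ W', |len ((FreeGroup.lift x) w) - len ((FreeGroup.lift x') w)| ≤ δ) →
      ∀ g : Perm (Fin n), ∃ g' : Perm (Fin m), ∀ w ∈ W,
        |len ((FreeGroup.lift (Function.update x j g)) w) -
          len ((FreeGroup.lift (Function.update x' j g')) w)| ≤ ε := by
  classical
  obtain ⟨K, δ, N, hδ, H⟩ := back j W ε hε
  refine ⟨(Finset.range (K + 1)).image (fun k => (FreeGroup.of (1 - j)) ^ k), δ, max N 1, hδ,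
    fun n m hn hm x x' h g => ?_⟩
  obtain ⟨g', hg'⟩ := H n m (le_trans (le_max_right _ _) hn) (le_trans (le_max_left _ _) hm)
    (x (1 - j)) g (x' (1 - j)) (by
      intro k hk
      have := h ((FreeGroup.of (1 - j)) ^ k)
        (Finset.mem_image.2 ⟨k, Finset.mem_range.2 (by omega), rfl⟩)
      rw [map_pow, map_pow, FreeGroup.lift_apply_of, FreeGroup.lift_apply_of] at this
      exact this)
  refine ⟨g', fun w hw => ?_⟩
  rw [update_pr, update_pr]
  exact hg' w hw

theorem good_quant (j : Fin 2) (ψ : (n : ℕ) → (Fin 2 → Perm (Fin n)) → ℝ) (hψ : Good ψ)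
    (ε : ℝ) (hε : 0 < ε) :
    ∃ (W : Finset (FreeGroup (Fin 2))) (δ : ℝ) (N : ℕ), 0 < δ ∧
    ∀ (n m : ℕ), N ≤ n → N ≤ m → ∀ (x : Fin 2 → Perm (Fin n)) (y : Fin 2 → Perm (Fin m)),
    (∀ w ∈ W, |len ((FreeGroup.lift x) w) - len ((FreeGroup.lift y) w)| ≤ δ) →
    (∀ g : Perm (Fin n), ∃ g' : Perm (Fin m),
      |ψ n (Function.update x j g) - ψ m (Function.update y j g')| ≤ ε) ∧
    (∀ g' : Perm (Fin m), ∃ g : Perm (Fin n),
      |ψ n (Function.update x j g) - ψ m (Function.update y j g')| ≤ ε) := by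
  obtain ⟨W, δ, N, hδ, hW⟩ := hψ.2 ε hε
  obtain ⟨W', δ', N', hδ', hT⟩ := transfer j W δ hδ
  refine ⟨W', δ', max N N', hδ', fun n m hn hm x y h => ⟨fun g => ?_, fun g' => ?_⟩⟩
  · obtain ⟨g', hg'⟩ := hT n m (le_trans (le_max_right _ _) hn) (le_trans (le_max_right _ _) hm)
      x y h g
    exact ⟨g', hW n m (le_trans (le_max_left _ _) hn) (le_trans (le_max_left _ _) hm) _ _ hg'⟩
  · obtain ⟨g, hg⟩ := hT m n (le_trans (le_max_right _ _) hm) (le_trans (le_max_right _ _) hn)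
      y x (fun w hw => by rw [abs_sub_comm]; exact h w hw) g'
    refine ⟨g, hW n m (le_trans (le_max_left _ _) hn) (le_trans (le_max_left _ _) hm) _ _ ?_⟩
    intro w hw
    rw [abs_sub_comm]
    exact hg w hw

theorem good_sup (j : Fin 2) (ψ : (n : ℕ) → (Fin 2 → Perm (Fin n)) → ℝ) (hψ : Good ψ) :
    Good (fun (n : ℕ) (x : Fin 2 → Perm (Fin n)) =>
      ⨆ g : Perm (Fin n), ψ n (Function.update x j g)) := by
  constructor
  · obtain ⟨B, hB⟩ := hψ.1
    refine ⟨B, fun n x => ?_⟩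
    rw [abs_le]
    constructor
    · exact le_trans (abs_le.1 (hB n _)).1
        (le_ciSup (f := fun g : Perm (Fin n) => ψ n (Function.update x j g))
          (Set.finite_range _).bddAbove 1)
    · exact ciSup_le (fun g => (abs_le.1 (hB n _)).2)
  · intro ε hε
    obtain ⟨W, δ, N, hδ, H⟩ := good_quant j ψ hψ ε hε
    refine ⟨W, δ, N, hδ, fun n m hn hm x y h => ?_⟩
    obtain ⟨h1, h2⟩ := H n m hn hm x y h
    exact sup_close _ _ ε h1 h2

theorem good_inf (j : Fin 2) (ψ : (n : ℕ) → (Fin 2 → Perm (Fin n)) → ℝ) (hψ : Good ψ) :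
    Good (fun (n : ℕ) (x : Fin 2 → Perm (Fin n)) =>
      ⨅ g : Perm (Fin n), ψ n (Function.update x j g)) := by
  constructor
  · obtain ⟨B, hB⟩ := hψ.1
    refine ⟨B, fun n x => ?_⟩
    rw [abs_le]
    constructor
    · exact le_ciInf (fun g => (abs_le.1 (hB n _)).1)
    · exact le_trans
        (ciInf_le (f := fun g : Perm (Fin n) => ψ n (Function.update x j g))
          (Set.finite_range _).bddBelow 1) (abs_le.1 (hB n _)).2
  · intro ε hε
    obtain ⟨W, δ, N, hδ, H⟩ := good_quant j ψ hψ ε hε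
    refine ⟨W, δ, N, hδ, fun n m hn hm x y h => ?_⟩
    obtain ⟨h1, h2⟩ := H n m hn hm x y h
    exact inf_close _ _ ε h1 h2

theorem good_all {ψ : (n : ℕ) → (Fin 2 → Perm (Fin n)) → ℝ} (h : TwoVar ψ) : Good ψ := by
  induction h with
  | atom w => exact good_atom w
  | conn m c ψ hc _ ih => exact good_conn m c ψ hc ih
  | sup j ψ _ ih => exact good_sup j ψ ih
  | inf j ψ _ ih => exact good_inf j ψ ih

theorem lift_one {n : ℕ} (w : FreeGroup (Fin 2)) :
    (FreeGroup.lift (fun _ : Fin 2 => (1 : Perm (Fin n)))) w = 1 := by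
  have : FreeGroup.lift (fun _ : Fin 2 => (1 : Perm (Fin n))) = 1 := by
    ext i
    simp
  rw [this]
  rfl

theorem main (φ : (n : ℕ) → (Fin 2 → Perm (Fin n)) → ℝ) (hφ : TwoVar φ) :
    ∃ L : ℝ, Tendsto (fun n : ℕ => φ n (fun _ => 1)) atTop (𝓝 L) := by
  have hg := good_all hφ
  have hc : CauchySeq (fun n : ℕ => φ n (fun _ => 1)) := by
    rw [Metric.cauchySeq_iff]
    intro ε hε
    obtain ⟨W, δ, N, hδ, H⟩ := hg.2 (ε / 2) (by positivity)
    refine ⟨N, fun n hn m hm => ?_⟩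
    rw [Real.dist_eq]
    refine lt_of_le_of_lt (H n m hn hm _ _ ?_) (by linarith)
    intro w hw
    rw [lift_one, lift_one]
    simp [len, hδ.le]
  exact cauchySeq_tendsto_of_complete hc

end Pool.Agent.CSV
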