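import Mathlib
import Pool.Agent.CSV.Fin

set_option autoImplicit false

namespace Pool.Agent.CSV

open Equiv Filter Topology

/-- The word lengths of a pair. -/
noncomputable def typ {n : ℕ} (x : Fin 2 → Perm (Fin n)) : FreeGroup (Fin 2) → ℝ :=
  fun w => len ((FreeGroup.lift x) w)

theorem approx_one (φ : (n : ℕ) → (Fin 2 → Perm (Fin n)) → ℝ) (hφ : Good φ) (ε : ℝ)
    (hε : 0 < ε) :
    ∃ c : (FreeGroup (Fin 2) → ℝ) → ℝ, Continuous c ∧
      ∃ N : ℕ, ∀ n, N ≤ n → ∀ x : Fin 2 → Perm (Fin n), |φ n x - c (typ x)| ≤ ε := by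
  classical
  obtain ⟨⟨B, hB⟩, hG⟩ := hφ
  obtain ⟨W, δ, N, hδ, H⟩ := hG ε hε
  have hB0 : 0 ≤ B := (abs_nonneg _).trans (hB 0 (fun _ => 1))
  let Y : Type := Σ m : {m : ℕ // N ≤ m}, (Fin 2 → Perm (Fin m.1))
  haveI : Nonempty Y := ⟨⟨⟨N, le_refl N⟩, fun _ => 1⟩⟩
  let C : ℝ := 2 * B / δ
  have hC : 0 ≤ C := by positivity
  let f : Y → (FreeGroup (Fin 2) → ℝ) → ℝ := fun y t =>
    φ y.1.1 y.2 + C * ∑ w ∈ W, |t w - typ y.2 w|
  have hfB : ∀ t y, -B ≤ f y t := by
    intro t y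
    have h1 := (abs_le.1 (hB y.1.1 y.2)).1
    have h2 : 0 ≤ C * ∑ w ∈ W, |t w - typ y.2 w| :=
      mul_nonneg hC (Finset.sum_nonneg (fun w _ => abs_nonneg _))
    show -B ≤ φ y.1.1 y.2 + C * ∑ w ∈ W, |t w - typ y.2 w|
    linarith
  have hbdd : ∀ t, BddBelow (Set.range (fun y => f y t)) := by
    intro t
    refine ⟨-B, ?_⟩
    rintro _ ⟨y, rfl⟩
    exact hfB t y
  let c : (FreeGroup (Fin 2) → ℝ) → ℝ := fun t => ⨅ y, f y t
  have hlip : ∀ s t, c s ≤ c t + C * ∑ w ∈ W, |s w - t w| := by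
    intro s t
    have h1 : c s - C * ∑ w ∈ W, |s w - t w| ≤ c t := by
      apply le_ciInf
      intro y
      have h2 : c s ≤ f y s := ciInf_le (hbdd s) y
      have h3 : f y s ≤ f y t + C * ∑ w ∈ W, |s w - t w| := by
        show φ y.1.1 y.2 + C * ∑ w ∈ W, |s w - typ y.2 w| ≤
          φ y.1.1 y.2 + C * ∑ w ∈ W, |t w - typ y.2 w| + C * ∑ w ∈ W, |s w - t w|
        have h4 : ∑ w ∈ W, |s w - typ y.2 w| ≤
            ∑ w ∈ W, |t w - typ y.2 w| + ∑ w ∈ W, |s w - t w| := by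
          rw [← Finset.sum_add_distrib]
          apply Finset.sum_le_sum
          intro w _
          have := abs_sub_le (s w) (t w) (typ y.2 w)
          linarith
        nlinarith [mul_le_mul_of_nonneg_left h4 hC]
      linarith
    linarith
  refine ⟨c, ?_, N, fun n hn x => ?_⟩
  · rw [continuous_iff_continuousAt]
    intro t
    have hg : Continuous (fun s : FreeGroup (Fin 2) → ℝ => C * ∑ w ∈ W, |s w - t w|) := by
      fun_prop
    have hg0 : Tendsto (fun s : FreeGroup (Fin 2) → ℝ => C * ∑ w ∈ W, |s w - t w|) (𝓝 t) (𝓝 0) := by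
      have := hg.tendsto t
      simpa using this
    rw [ContinuousAt, tendsto_iff_norm_sub_tendsto_zero]
    refine squeeze_zero (fun s => norm_nonneg _) (fun s => ?_) hg0
    rw [Real.norm_eq_abs, abs_le]
    constructor
    · have h1 := hlip t s
      have h2 : ∑ w ∈ W, |t w - s w| = ∑ w ∈ W, |s w - t w| :=
        Finset.sum_congr rfl (fun w _ => abs_sub_comm _ _)
      rw [h2] at h1
      linarith
    · have h1 := hlip s t
      linarith
  · have h1 : c (typ x) ≤ φ n x := by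
      have h2 : c (typ x) ≤ f ⟨⟨n, hn⟩, x⟩ (typ x) := ciInf_le (hbdd _) _
      have h3 : f ⟨⟨n, hn⟩, x⟩ (typ x) = φ n x := by
        show φ n x + C * ∑ w ∈ W, |typ x w - typ x w| = φ n x
        simp
      rwa [h3] at h2
    have h4 : φ n x - ε ≤ c (typ x) := by
      apply le_ciInf
      rintro ⟨⟨m, hm⟩, y⟩
      show φ n x - ε ≤ φ m y + C * ∑ w ∈ W, |typ x w - typ y w|
      by_cases hclose : ∀ w ∈ W, |len ((FreeGroup.lift x) w) - len ((FreeGroup.lift y) w)| ≤ δ
      · have h5 := (abs_le.1 (H n m hn hm x y hclose)).2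
        have h6 : 0 ≤ C * ∑ w ∈ W, |typ x w - typ y w| :=
          mul_nonneg hC (Finset.sum_nonneg (fun w _ => abs_nonneg _))
        linarith
      · push Not at hclose
        obtain ⟨w, hw, hwδ⟩ := hclose
        have h7 : δ ≤ ∑ w ∈ W, |typ x w - typ y w| :=
          hwδ.le.trans (Finset.single_le_sum (f := fun w => |typ x w - typ y w|)
            (fun w _ => abs_nonneg _) hw)
        have h8 : 2 * B ≤ C * ∑ w ∈ W, |typ x w - typ y w| := by
          have h9 : C * δ = 2 * B := by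
            show 2 * B / δ * δ = 2 * B
            field_simp
          rw [← h9]
          exact mul_le_mul_of_nonneg_left h7 hC
        have h10 := (abs_le.1 (hB n x)).2
        have h11 := (abs_le.1 (hB m y)).1
        linarith
    rw [abs_le]
    constructor <;> linarith

/-- One continuous function of the word lengths describes a good formula asymptotically. -/
theorem glue (φ : (n : ℕ) → (Fin 2 → Perm (Fin n)) → ℝ) (hφ : Good φ) :
    ∃ F : (FreeGroup (Fin 2) → ℝ) → ℝ, Continuous F ∧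
      ∀ ε : ℝ, 0 < ε → ∃ N : ℕ, ∀ n, N ≤ n → ∀ x : Fin 2 → Perm (Fin n),
        |φ n x - F (typ x)| ≤ ε := by
  classical
  choose c hc N hN using fun k : ℕ => approx_one φ hφ ((1 / 2 : ℝ) ^ k) (by positivity)
  let d : ℕ → (FreeGroup (Fin 2) → ℝ) → ℝ := fun k t =>
    max (-(2 * (1 / 2 : ℝ) ^ k)) (min (2 * (1 / 2 : ℝ) ^ k) (c (k + 1) t - c k t))
  have hdc : ∀ k, Continuous (d k) := by
    intro k
    exact continuous_const.max (continuous_const.min ((hc (k + 1)).sub (hc k)))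
  have hdb : ∀ k t, ‖d k t‖ ≤ 2 * (1 / 2 : ℝ) ^ k := by
    intro k t
    have hpos : (0 : ℝ) < 2 * (1 / 2 : ℝ) ^ k := by positivity
    rw [Real.norm_eq_abs, abs_le]
    constructor
    · exact le_max_left _ _
    · exact max_le (by linarith) (min_le_left _ _)
  have hgeo : Summable (fun k : ℕ => (1 / 2 : ℝ) ^ k) :=
    summable_geometric_of_lt_one (by norm_num) (by norm_num)
  have hsum : Summable (fun k : ℕ => 2 * (1 / 2 : ℝ) ^ k) := hgeo.mul_left 2
  refine ⟨fun t => c 0 t + ∑' k, d k t, (hc 0).add (continuous_tsum hdc hsum hdb), ?_⟩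
  intro ε hε
  obtain ⟨K, hK⟩ := exists_pow_lt_of_lt_one (show (0 : ℝ) < ε / 5 by positivity)
    (show (1 / 2 : ℝ) < 1 by norm_num)
  refine ⟨(Finset.range (K + 1)).sup N, fun n hn x => ?_⟩
  have hNk : ∀ k ≤ K, N k ≤ n := fun k hk =>
    (Finset.le_sup (f := N) (Finset.mem_range.2 (by omega))).trans hn
  have hsd : Summable (fun k => d k (typ x)) := Summable.of_norm_bounded hsum (fun k => hdb k _)
  have hexact : ∀ k ∈ Finset.range K, d k (typ x) = c (k + 1) (typ x) - c k (typ x) := by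
    intro k hk
    rw [Finset.mem_range] at hk
    have h1 := abs_le.1 (hN k n (hNk k (by omega)) x)
    have h2 := abs_le.1 (hN (k + 1) n (hNk (k + 1) (by omega)) x)
    have h3 : (1 / 2 : ℝ) ^ (k + 1) ≤ (1 / 2 : ℝ) ^ k := by
      rw [pow_succ]
      have : (0 : ℝ) < (1 / 2 : ℝ) ^ k := by positivity
      linarith
    show max (-(2 * (1 / 2 : ℝ) ^ k)) (min (2 * (1 / 2 : ℝ) ^ k)
      (c (k + 1) (typ x) - c k (typ x))) = _
    rw [min_eq_right (by linarith [h1.1, h1.2, h2.1, h2.2]),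
      max_eq_right (by linarith [h1.1, h1.2, h2.1, h2.2])]
  have hsplit := hsd.sum_add_tsum_nat_add K
  have htel : ∑ k ∈ Finset.range K, d k (typ x) = c K (typ x) - c 0 (typ x) := by
    rw [Finset.sum_congr rfl hexact]
    exact Finset.sum_range_sub (fun k => c k (typ x)) K
  have htail : |∑' k, d (k + K) (typ x)| ≤ 4 * (1 / 2 : ℝ) ^ K := by
    have h4 : HasSum (fun k : ℕ => 2 * (1 / 2 : ℝ) ^ K * (1 / 2 : ℝ) ^ k)
        (2 * (1 / 2 : ℝ) ^ K * 2) := by
      have := hasSum_geometric_of_lt_one (show (0 : ℝ) ≤ 1 / 2 by norm_num)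
        (show (1 / 2 : ℝ) < 1 by norm_num)
      have h5 := this.mul_left (2 * (1 / 2 : ℝ) ^ K)
      have h6 : (1 - 1 / 2 : ℝ)⁻¹ = 2 := by norm_num
      rwa [h6] at h5
    have h7 := tsum_of_norm_bounded h4 (f := fun k => d (k + K) (typ x)) (fun k => by
      refine (hdb (k + K) (typ x)).trans (le_of_eq ?_)
      rw [pow_add]; ring)
    rw [Real.norm_eq_abs] at h7
    linarith
  have hφK := abs_le.1 (hN K n (hNk K le_rfl) x)
  have ht := abs_le.1 htail
  show |φ n x - (c 0 (typ x) + ∑' k, d k (typ x))| ≤ ε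
  rw [← hsplit, htel, abs_le]
  constructor
  · linarith [ht.1, ht.2, hφK.1, hφK.2]
  · linarith [ht.1, ht.2, hφK.1, hφK.2]

theorem typ_one {n : ℕ} : typ (fun _ : Fin 2 => (1 : Perm (Fin n))) = fun _ => 0 := by
  funext w
  unfold typ
  rw [lift_one]
  simp [len]

theorem final (φ : (n : ℕ) → (Fin 2 → Perm (Fin n)) → ℝ) (hφ : TwoVar φ) :
    ∃ F : (FreeGroup (Fin 2) → ℝ) → ℝ, Continuous F ∧
      Tendsto (fun n : ℕ => φ n (fun _ => 1)) atTop (𝓝 (F (fun _ => 0))) ∧
      ∀ ε : ℝ, 0 < ε → ∃ N : ℕ, ∀ n, N ≤ n → ∀ x : Fin 2 → Perm (Fin n),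
        |φ n x - F (fun w => (((FreeGroup.lift x) w).support.card : ℝ) / (n : ℝ))| ≤ ε := by
  obtain ⟨F, hF, h⟩ := glue φ (good_all hφ)
  refine ⟨F, hF, ?_, fun ε hε => ?_⟩
  · rw [Metric.tendsto_atTop]
    intro ε hε
    obtain ⟨N, hN⟩ := h (ε / 2) (by positivity)
    refine ⟨N, fun n hn => ?_⟩
    have := hN n hn (fun _ => 1)
    rw [typ_one] at this
    rw [Real.dist_eq]
    linarith
  · obtain ⟨N, hN⟩ := h ε hε
    exact ⟨N, fun n hn x => hN n hn x⟩

end Pool.Agent.CSV
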