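import Mathlib
import Pool.Agent.CSV.Main

set_option autoImplicit false

namespace Pool.Agent.CSV

open Equiv Filter Topology

theorem slow_sentence (φ : (n : ℕ) → (Fin 0 → Perm (Fin n)) → ℝ) (hφ : IsFormula 0 φ)
    (ε : ℝ) (hε : 0 < ε) :
    ∃ δ : ℝ, 0 < δ ∧ ∀ n m : ℕ, 1 ≤ n → n ≤ m → (m : ℝ) ≤ (1 + δ) * n →
      |φ n Fin.elim0 - φ m Fin.elim0| ≤ ε := by
  obtain ⟨-, h⟩ := slow_all hφ
  obtain ⟨δ, hδ, hδ0⟩ := ((h ε hε).and self_mem_nhdsWithin).exists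
  refine ⟨δ, hδ0, fun n m hn hnm hm => ?_⟩
  exact hδ n m hnm hn (by linarith) Fin.elim0 Fin.elim0 (fun j => Fin.elim0 j)

end Pool.Agent.CSV
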