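import Mathlib
import Pool.Agent.CSV.TreeDefs
import Pool.Agent.CSV.FinDefs

set_option autoImplicit false

namespace Pool.Agent.CSV

open Equiv Filter Topology

/-- Two-variable formulas are tree-like after renaming. -/
theorem two_to_tree {φ : (n : ℕ) → (Fin 2 → Perm (Fin n)) → ℝ} (hφ : TwoVar φ) :
    ∀ (k : ℕ) (p : Fin k → Fin k) (a b : Fin k), (p b = a ∨ p a = b) →
      TreeLike k p (fun n (x : Fin k → Perm (Fin n)) => φ n ![x a, x b]) := by
  induction hφ with
  | atom w =>
    intro k p a b hab
    rcases hab with hab | hab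
    · have h := TreeLike.atom k p b (FreeGroup.map (fun i : Fin 2 => 1 - i) w)
      have e : (fun (n : ℕ) (x : Fin k → Perm (Fin n)) =>
          (((FreeGroup.lift ![x b, x (p b)]) (FreeGroup.map (fun i : Fin 2 => 1 - i) w)).support.card
            : ℝ) / (n : ℝ)) = (fun (n : ℕ) (x : Fin k → Perm (Fin n)) =>
          (((FreeGroup.lift ![x a, x b]) w).support.card : ℝ) / (n : ℝ)) := by
        funext n x
        have : (FreeGroup.lift ![x b, x (p b)]).comp (FreeGroup.map (fun i : Fin 2 => 1 - i)) =
            (FreeGroup.lift ![x a, x b] : FreeGroup (Fin 2) →* Perm (Fin n)) := by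
          apply FreeGroup.ext_hom
          intro i
          rw [hab]
          fin_cases i <;> simp
        rw [← this]
        rfl
      rw [e] at h
      exact h
    · have h := TreeLike.atom k p a w
      rw [hab] at h
      exact h
  | conn m c ψ hc _ ih =>
    intro k p a b hab
    exact TreeLike.conn k p m c (fun j n x => ψ j n ![x a, x b]) hc (fun j => ih j k p a b hab)
  | sup j ψ _ ih =>
    intro k p a b hab
    fin_cases j
    · have h := TreeLike.sup k p b.castSucc _ (ih (k + 1)
        (Fin.snoc (α := fun _ => Fin (k + 1)) (fun i => (p i).castSucc) b.castSucc)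
        (Fin.last k) b.castSucc (Or.inr (by rw [Fin.snoc_last])))
      convert h using 5 with n x g
      refine congrArg (ψ n) ?_
      funext i
      fin_cases i <;> simp
    · have h := TreeLike.sup k p a.castSucc _ (ih (k + 1)
        (Fin.snoc (α := fun _ => Fin (k + 1)) (fun i => (p i).castSucc) a.castSucc)
        a.castSucc (Fin.last k) (Or.inl (by rw [Fin.snoc_last])))
      convert h using 5 with n x g
      refine congrArg (ψ n) ?_
      funext i
      fin_cases i <;> simp
  | inf j ψ _ ih =>
    intro k p a b hab
    fin_cases j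
    · have h := TreeLike.inf k p b.castSucc _ (ih (k + 1)
        (Fin.snoc (α := fun _ => Fin (k + 1)) (fun i => (p i).castSucc) b.castSucc)
        (Fin.last k) b.castSucc (Or.inr (by rw [Fin.snoc_last])))
      convert h using 5 with n x g
      refine congrArg (ψ n) ?_
      funext i
      fin_cases i <;> simp
    · have h := TreeLike.inf k p a.castSucc _ (ih (k + 1)
        (Fin.snoc (α := fun _ => Fin (k + 1)) (fun i => (p i).castSucc) a.castSucc)
        a.castSucc (Fin.last k) (Or.inl (by rw [Fin.snoc_last])))
      convert h using 5 with n x g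
      refine congrArg (ψ n) ?_
      funext i
      fin_cases i <;> simp

/-- A two-variable formula, closed by two quantifiers, is a tree-like sentence. -/
theorem two_sentence {φ : (n : ℕ) → (Fin 2 → Perm (Fin n)) → ℝ} (hφ : TwoVar φ) :
    TreeLike 0 (fun i => i) (fun n (x : Fin 0 → Perm (Fin n)) =>
      ⨆ g : Perm (Fin n), ⨆ g' : Perm (Fin n), φ n ![g, g']) := by
  have h2 := two_to_tree hφ 2 (fun _ => 0) 0 1 (Or.inl rfl)
  have h1 := TreeLike.sup 1 (fun _ => 0) 0 (fun n (x : Fin 2 → Perm (Fin n)) => φ n ![x 0, x 1]) (by
    convert h2 using 1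
    funext i
    fin_cases i <;> rfl)
  have h0 := TreeLike.sup 0 (fun i => i) 0 _ (by
    convert h1 using 1
    funext i
    fin_cases i
    rfl)
  convert h0 using 5 with n x g
  refine iSup_congr (fun g' => congrArg (φ n) ?_)
  funext i
  fin_cases i
  · show g = Fin.snoc (α := fun _ => Perm (Fin n)) (Fin.snoc (α := fun _ => Perm (Fin n)) x g) g'
      (Fin.castSucc (Fin.last 0))
    rw [Fin.snoc_castSucc, Fin.snoc_last]
  · show g' = Fin.snoc (α := fun _ => Perm (Fin n)) (Fin.snoc (α := fun _ => Perm (Fin n)) x g) g'
      (Fin.last 1)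
    rw [Fin.snoc_last]

end Pool.Agent.CSV
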